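import Mathlib
import Pool.Agent.Lib.MP_688fd0_co.SQ5.H64.Diag

/-!
MP_688fd0_co, type C: STAR for a whole strand graph, part A: surgeries on a pairing and the
outside seen from eight ends.
-/

namespace Pool.Agent.Lib.MP_688fd0_co.SQ5.H69

open Function Equiv
open Pool.Agent.Lib.MP_688fd0_co.SQ5.H64

set_option linter.unusedSectionVars false

noncomputable section

/-! ### Surgery -/

section Surg

variable {E : Type*} [DecidableEq E]

/-- surgery: pair `u` with `v` and `f u` with `f v` -/
def sg (u v : E) (f : E → E) (e : E) : E := swap (f u) v (f (swap (f u) v e))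

variable {f : E → E} {u v : E}

theorem sg_left (hf : IsPair f) (huv : u ≠ v) : sg u v f u = v := by
  unfold sg
  rw [swap_apply_of_ne_of_ne (hf.2 u).symm huv, swap_apply_left]

theorem sg_right (hf : IsPair f) (huv : u ≠ v) : sg u v f v = u := by
  unfold sg
  rw [swap_apply_right, hf.1, swap_apply_of_ne_of_ne (hf.2 u).symm huv]

theorem pair_inj (hf : IsPair f) : Injective f := (show Function.Involutive f from hf.1).injective

theorem sg_fu (hf : IsPair f) (huv : u ≠ v) : sg u v f (f u) = f v := by
  unfold sg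
  rw [swap_apply_left, swap_apply_of_ne_of_ne (fun h => huv (pair_inj hf h).symm) (hf.2 v)]

theorem sg_fv (hf : IsPair f) (huv : u ≠ v) : sg u v f (f v) = f u := by
  unfold sg
  rw [swap_apply_of_ne_of_ne (fun h => huv (pair_inj hf h).symm) (hf.2 v), hf.1,
    swap_apply_right]

theorem sg_other (hf : IsPair f) {e : E} (h1 : e ≠ u) (h2 : e ≠ v) (h3 : e ≠ f u)
    (h4 : e ≠ f v) : sg u v f e = f e := by
  unfold sg
  rw [swap_apply_of_ne_of_ne h3 h2, swap_apply_of_ne_of_ne]
  · exact fun h => h1 (pair_inj hf h)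
  · intro h
    apply h4
    rw [← h, hf.1]

theorem sg_pair (hf : IsPair f) : IsPair (sg u v f) := by
  constructor
  · intro x
    unfold sg
    rw [swap_apply_self, hf.1, swap_apply_self]
  · intro x h
    unfold sg at h
    apply hf.2 (swap (f u) v x)
    have h1 := congrArg (swap (f u) v) h
    rwa [swap_apply_self] at h1

end Surg

/-! ### Surgery on two different outside paths -/

section Cut

variable {E : Type*} {O O' J : E → E} {u v : E}

/-- the path of `u` without its first step survives -/
theorem con_from (hO : ∀ x, O (O x) = x) (hu : J u = u)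
    (hs : ∀ e, e ≠ u → e ≠ v → e ≠ O u → e ≠ O v → O' e = O e) (hv : ¬ Con O J u v) {e : E}
    (h : Con O J u e) : e = u ∨ Con O' J (O u) e := by
  induction h with
  | refl => exact Or.inl rfl
  | tail hb hs' ih =>
    rename_i b c
    rcases hs' with hc | hc
    · by_cases h1 : b = u
      · right; rw [hc, h1]; exact Con.refl' _
      · by_cases h2 : b = O u
        · left; rw [hc, h2, hO]
        · right
          have h3 : b ≠ v := fun h => hv (h ▸ hb)
          have h4 : b ≠ O v := by
            intro h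
            apply hv
            have h5 : Con O J u (O v) := h ▸ hb
            have h6 := h5.trans' (con_left _)
            rwa [hO] at h6
          refine (ih.resolve_left h1).trans' ?_
          rw [hc, ← hs b h1 h3 h2 h4]
          exact con_left _
    · by_cases h1 : b = u
      · left; rw [hc, h1, hu]
      · right
        refine (ih.resolve_left h1).trans' ?_
        rw [hc]; exact con_right _

/-- paths which avoid `u` and `v` survive -/
theorem con_avoid (hO : ∀ x, O (O x) = x)
    (hs : ∀ e, e ≠ u → e ≠ v → e ≠ O u → e ≠ O v → O' e = O e) {e f : E}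
    (h : Con O J e f) (h1 : ¬ Con O J e u) (h2 : ¬ Con O J e v) : Con O' J e f := by
  induction h with
  | refl => exact Con.refl' _
  | tail hb hs' ih =>
    rename_i b c
    refine ih.trans' ?_
    rcases hs' with hc | hc
    · have h3 : O' b = O b := by
        apply hs
        · intro h; exact h1 (h ▸ hb)
        · intro h; exact h2 (h ▸ hb)
        · intro h
          apply h1
          have h6 := (h ▸ hb : Con O J e (O u)).trans' (con_left _)
          rwa [hO] at h6
        · intro h
          apply h2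
          have h6 := (h ▸ hb : Con O J e (O v)).trans' (con_left _)
          rwa [hO] at h6
      rw [hc, ← h3]
      exact con_left _
    · rw [hc]; exact con_right _

end Cut

section OthSg

variable {E : Type*} [Finite E] [DecidableEq E] {O J : E → E} {u v : E}

theorem not_con_of_oth (hO : IsPair O) (hJ : ∀ x, J (J x) = x) (hu : J u = u) (hv : J v = v)
    (huv : u ≠ v) (hov : oth O J u ≠ v) : ¬ Con O J u v := by
  intro h
  rcases eq_or_oth hO hJ hu hv h with h1 | h1
  · exact huv h1.symm
  · exact hov h1.symm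

variable (hO : IsPair O) (hJ : ∀ x, J (J x) = x) (hu : J u = u) (hv : J v = v)
  (huv : u ≠ v) (hov : oth O J u ≠ v)

include hO hJ hu hv huv hov

omit [Finite E] hJ hu hv hov in
theorem sg_same : ∀ e, e ≠ u → e ≠ v → e ≠ O u → e ≠ O v → sg u v O e = O e :=
  fun _ h1 h2 h3 h4 => sg_other hO h1 h2 h3 h4

theorem from_u {e : E} (h : Con O J u e) : e = u ∨ Con (sg u v O) J (O u) e :=
  con_from hO.1 hu (sg_same hO huv) (not_con_of_oth hO hJ hu hv huv hov) h

theorem from_v {e : E} (h : Con O J v e) : e = v ∨ Con (sg u v O) J (O v) e := by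
  refine con_from (v := u) hO.1 hv ?_ ?_ h
  · intro e h1 h2 h3 h4
    exact sg_other hO h2 h1 h4 h3
  · intro h'
    exact not_con_of_oth hO hJ hu hv huv hov (h'.symm' hO.1 hJ)

theorem oth_sg_u : oth (sg u v O) J u = v := by
  refine oth_eq (sg_pair hO) hJ hu hv huv.symm ?_
  have h := con_left (f := sg u v O) (g := J) u
  rwa [sg_left hO huv] at h

theorem oth_sg_v : oth (sg u v O) J v = u := by
  refine oth_eq (sg_pair hO) hJ hv hu huv ?_
  have h := con_left (f := sg u v O) (g := J) v
  rwa [sg_right hO huv] at h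

theorem con_oth_oth : Con (sg u v O) J (oth O J u) (oth O J v) := by
  have h1 : Con (sg u v O) J (O u) (oth O J u) :=
    (from_u hO hJ hu hv huv hov (con_oth u)).resolve_left (oth_ne hO hJ hu)
  have h2 : Con (sg u v O) J (O v) (oth O J v) :=
    (from_v hO hJ hu hv huv hov (con_oth v)).resolve_left (oth_ne hO hJ hv)
  have h3 : Con (sg u v O) J (O u) (O v) := by
    have h := con_left (f := sg u v O) (g := J) (O u)
    rwa [sg_fu hO huv] at h
  exact (h1.symm' (sg_pair hO).1 hJ).trans' (h3.trans' h2)

theorem oth_ne_oth : oth O J u ≠ oth O J v := by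
  intro h
  have h1 : Con O J u v := by
    refine (con_oth u).trans' ?_
    rw [h]
    exact (con_oth v).symm' hO.1 hJ
  exact not_con_of_oth hO hJ hu hv huv hov h1

theorem oth_sg_ou : oth (sg u v O) J (oth O J u) = oth O J v :=
  oth_eq (sg_pair hO) hJ (J_oth hO hJ hu) (J_oth hO hJ hv)
    (oth_ne_oth hO hJ hu hv huv hov).symm (con_oth_oth hO hJ hu hv huv hov)

theorem oth_sg_ov : oth (sg u v O) J (oth O J v) = oth O J u :=
  oth_eq (sg_pair hO) hJ (J_oth hO hJ hv) (J_oth hO hJ hu)
    (oth_ne_oth hO hJ hu hv huv hov)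
    ((con_oth_oth hO hJ hu hv huv hov).symm' (sg_pair hO).1 hJ)

theorem oth_sg_other {e : E} (he : J e = e) (h1 : e ≠ u) (h2 : e ≠ v) (h3 : e ≠ oth O J u)
    (h4 : e ≠ oth O J v) : oth (sg u v O) J e = oth O J e := by
  refine oth_eq (sg_pair hO) hJ he (J_oth hO hJ he) (oth_ne hO hJ he) ?_
  refine con_avoid hO.1 (sg_same hO huv) (con_oth e) ?_ ?_
  · intro h
    rcases eq_or_oth hO hJ hu he (h.symm' hO.1 hJ) with h' | h'
    · exact h1 h'
    · exact h3 h'
  · intro h
    rcases eq_or_oth hO hJ hv he (h.symm' hO.1 hJ) with h' | h'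
    · exact h2 h'
    · exact h4 h'

/-- whatever is joined to a `J`-fixed point stays so -/
theorem out_sg {e : E} (h : ∃ a, J a = a ∧ Con O J a e) :
    ∃ a, J a = a ∧ Con (sg u v O) J a e := by
  obtain ⟨a, ha, hae⟩ := h
  by_cases h1 : Con O J a u
  · have h2 : Con O J u e := (h1.symm' hO.1 hJ).trans' hae
    rcases from_u hO hJ hu hv huv hov h2 with h3 | h3
    · exact ⟨u, hu, by rw [h3]; exact Con.refl' _⟩
    · refine ⟨oth O J u, J_oth hO hJ hu, ?_⟩
      have h4 : Con (sg u v O) J (O u) (oth O J u) :=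
        (from_u hO hJ hu hv huv hov (con_oth u)).resolve_left (oth_ne hO hJ hu)
      exact (h4.symm' (sg_pair hO).1 hJ).trans' h3
  · by_cases h1' : Con O J a v
    · have h2 : Con O J v e := (h1'.symm' hO.1 hJ).trans' hae
      rcases from_v hO hJ hu hv huv hov h2 with h3 | h3
      · exact ⟨v, hv, by rw [h3]; exact Con.refl' _⟩
      · refine ⟨oth O J v, J_oth hO hJ hv, ?_⟩
        have h4 : Con (sg u v O) J (O v) (oth O J v) :=
          (from_v hO hJ hu hv huv hov (con_oth v)).resolve_left (oth_ne hO hJ hv)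
        exact (h4.symm' (sg_pair hO).1 hJ).trans' h3
    · exact ⟨a, ha, con_avoid hO.1 (sg_same hO huv) hae h1 h1'⟩

end OthSg

/-! ### The outside seen from eight ends -/

/-- the other end of the strand -/
def bar8 (i : Fin 8) : Fin 8 := i + 4

theorem bar8_bar8 (i : Fin 8) : bar8 (bar8 i) = i := by
  revert i; decide

theorem bar8_ne (i : Fin 8) : bar8 i ≠ i := by
  revert i; decide

/-- local surgery; a fixed point is joined to a terminal -/
def sg8 (u v : Fin 8) (P : Fin 8 → Fin 8) (e : Fin 8) : Fin 8 :=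
  if e = u then v else if e = v then u
  else if e = P u then (if P v = v then e else P v)
  else if e = P v then (if P u = u then e else P u)
  else P e

/-- `B` = the strands (fixed points are the terminals), `J` = the same with the eight ends
`L` cut -/
structure CutAt {E : Type*} (B J : E → E) (L : Fin 8 → E) : Prop where
  inv : ∀ x, B (B x) = x
  inj : Injective L
  bar : ∀ i, B (L i) = L (bar8 i)
  fix : ∀ i, J (L i) = L i
  off : ∀ e, (∀ i, e ≠ L i) → J e = B e

namespace CutAt

variable {E : Type*} {B J : E → E} {L : Fin 8 → E} (hc : CutAt B J L)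

include hc

theorem Jinv (x : E) : J (J x) = x := by
  by_cases h : ∃ i, x = L i
  · obtain ⟨i, rfl⟩ := h
    rw [hc.fix, hc.fix]
  · push Not at h
    have h1 : ∀ i, B x ≠ L i := by
      intro i hi
      apply h (bar8 i)
      rw [← hc.bar, ← hi, hc.inv]
    rw [hc.off x h, hc.off _ h1, hc.inv]

theorem term_ne {t : E} (ht : B t = t) (i : Fin 8) : t ≠ L i := by
  intro h
  rw [h, hc.bar] at ht
  exact bar8_ne i (hc.inj ht)

theorem term_fix {t : E} (ht : B t = t) : J t = t := by
  rw [hc.off t (hc.term_ne ht), ht]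

theorem fix_cases {a : E} (ha : J a = a) : (∃ i, a = L i) ∨ B a = a := by
  by_cases h : ∃ i, a = L i
  · exact Or.inl h
  · push Not at h
    right
    rw [← hc.off a h, ha]

/-- outside connections are connections -/
theorem con_of_J {Q : E → E} {x y : E} (h : Con Q J x y) : Con Q B x y := by
  induction h with
  | refl => exact Con.refl' _
  | tail _ hs ih =>
    rename_i b c _
    refine ih.trans' ?_
    rcases hs with hs | hs
    · rw [hs]; exact con_left _
    · by_cases h : ∃ i, b = L i
      · obtain ⟨i, rfl⟩ := h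
        rw [hs, hc.fix]; exact Con.refl' _
      · push Not at h
        rw [hs, hc.off b h]; exact con_right _

end CutAt

section P8

variable {E : Type*} [Finite E] (Q J : E → E) (L : Fin 8 → E)

open Classical in
/-- the pairing of the eight ends by the outside; a fixed point is joined to a terminal -/
def P8 (i : Fin 8) : Fin 8 := if h : ∃ j, oth Q J (L i) = L j then h.choose else i

variable {Q J L} {B : E → E} (hQ : IsPair Q) (hc : CutAt B J L)

omit [Finite E] in
theorem p8_eq (hL : Injective L) {i j : Fin 8} (h : oth Q J (L i) = L j) :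
    P8 Q J L i = j := by
  have h1 : ∃ j, oth Q J (L i) = L j := ⟨j, h⟩
  unfold P8
  rw [dif_pos h1]
  exact hL (h1.choose_spec.symm.trans h)

omit [Finite E] in
theorem p8_not {i : Fin 8} (h : ∀ j, oth Q J (L i) ≠ L j) : P8 Q J L i = i := by
  unfold P8
  rw [dif_neg]
  push Not
  exact h

omit [Finite E] in
theorem p8_ne {i : Fin 8} (h : P8 Q J L i ≠ i) : oth Q J (L i) = L (P8 Q J L i) := by
  by_cases h1 : ∃ j, oth Q J (L i) = L j
  · have h2 : P8 Q J L i = h1.choose := by unfold P8; rw [dif_pos h1]
    rw [h2]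
    exact h1.choose_spec
  · exact absurd (p8_not (by push Not at h1; exact h1)) h

include hQ hc

theorem p8_fix {i : Fin 8} (h : P8 Q J L i = i) (j : Fin 8) : oth Q J (L i) ≠ L j := by
  intro h1
  have h2 := p8_eq hc.inj h1
  rw [h] at h2
  rw [← h2] at h1
  exact oth_ne hQ hc.Jinv (hc.fix i) h1

/-- a fixed point is joined to a terminal -/
theorem p8_term {i : Fin 8} (h : P8 Q J L i = i) : B (oth Q J (L i)) = oth Q J (L i) := by
  rcases hc.fix_cases (J_oth hQ hc.Jinv (hc.fix i)) with ⟨j, hj⟩ | h1
  · exact absurd hj (p8_fix hQ hc h j)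
  · exact h1

theorem p8_of_term {i : Fin 8} {t : E} (ht : B t = t) (h : Con Q J (L i) t) :
    P8 Q J L i = i := by
  have h1 : oth Q J (L i) = t :=
    oth_eq hQ hc.Jinv (hc.fix i) (hc.term_fix ht) (hc.term_ne ht i) h
  apply p8_not
  intro j
  rw [h1]
  exact hc.term_ne ht j

theorem p8_inv (i : Fin 8) : P8 Q J L (P8 Q J L i) = i := by
  by_cases h : P8 Q J L i = i
  · rw [h, h]
  · apply p8_eq hc.inj
    rw [← p8_ne h, oth_oth hQ hc.Jinv (hc.fix i)]

/-- local surgery is the local picture of the surgery -/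
theorem p8_sg [DecidableEq E] {u v : Fin 8} (huv : u ≠ v) (hP : P8 Q J L u ≠ v) :
    P8 (sg (L u) (L v) Q) J L = sg8 u v (P8 Q J L) := by
  have hJ := hc.Jinv
  have hu := hc.fix u
  have hv := hc.fix v
  have hLuv : L u ≠ L v := fun h => huv (hc.inj h)
  have hov : oth Q J (L u) ≠ L v := fun h => hP (p8_eq hc.inj h)
  funext e
  unfold sg8
  by_cases h1 : e = u
  · rw [if_pos h1, h1]
    exact p8_eq hc.inj (oth_sg_u hQ hJ hu hv hLuv hov)
  rw [if_neg h1]
  by_cases h2 : e = v
  · rw [if_pos h2, h2]
    exact p8_eq hc.inj (oth_sg_v hQ hJ hu hv hLuv hov)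
  rw [if_neg h2]
  by_cases h3 : e = P8 Q J L u
  · rw [if_pos h3]
    have h4 : oth Q J (L u) = L e := by
      rw [h3]; exact p8_ne (fun h => h1 (h3.trans h))
    have h5 : oth (sg (L u) (L v) Q) J (L e) = oth Q J (L v) := by
      rw [← h4]; exact oth_sg_ou hQ hJ hu hv hLuv hov
    by_cases h6 : P8 Q J L v = v
    · rw [if_pos h6]
      apply p8_not
      intro j
      rw [h5]
      exact p8_fix hQ hc h6 j
    · rw [if_neg h6]
      apply p8_eq hc.inj
      rw [h5]
      exact p8_ne h6
  rw [if_neg h3]
  by_cases h3' : e = P8 Q J L v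
  · rw [if_pos h3']
    have h4 : oth Q J (L v) = L e := by
      rw [h3']; exact p8_ne (fun h => h2 (h3'.trans h))
    have h5 : oth (sg (L u) (L v) Q) J (L e) = oth Q J (L u) := by
      rw [← h4]; exact oth_sg_ov hQ hJ hu hv hLuv hov
    by_cases h6 : P8 Q J L u = u
    · rw [if_pos h6]
      apply p8_not
      intro j
      rw [h5]
      exact p8_fix hQ hc h6 j
    · rw [if_neg h6]
      apply p8_eq hc.inj
      rw [h5]
      exact p8_ne h6
  rw [if_neg h3']
  have h5 : oth (sg (L u) (L v) Q) J (L e) = oth Q J (L e) := by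
    refine oth_sg_other hQ hJ hu hv hLuv hov (hc.fix e) (fun h => h1 (hc.inj h))
      (fun h => h2 (hc.inj h)) (fun h => h3 (p8_eq hc.inj h.symm).symm)
      (fun h => h3' (p8_eq hc.inj h.symm).symm)
  by_cases h6 : P8 Q J L e = e
  · rw [h6]
    apply p8_not
    intro j
    rw [h5]
    exact p8_fix hQ hc h6 j
  · apply p8_eq hc.inj
    rw [h5]
    exact p8_ne h6

/-- local connections are connections -/
theorem con_of_loc {i j : Fin 8} (h : Con (P8 Q J L) bar8 i j) : Con Q B (L i) (L j) := by
  induction h with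
  | refl => exact Con.refl' _
  | tail _ hs ih =>
    rename_i b c _
    refine ih.trans' ?_
    rcases hs with hs | hs
    · by_cases h1 : P8 Q J L b = b
      · rw [hs, h1]; exact Con.refl' _
      · rw [hs, ← p8_ne h1]
        exact hc.con_of_J (con_oth _)
    · rw [hs, ← hc.bar]; exact con_right _

/-- an end seen from the outside is locally connected -/
theorem loc_of_con {i : Fin 8} {f : E} (h : Con Q B (L i) f) :
    ∃ j, Con (P8 Q J L) bar8 i j ∧ Con Q J (L j) f := by
  induction h with
  | refl => exact ⟨i, Con.refl' _, Con.refl' _⟩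
  | tail _ hs ih =>
    rename_i b c _
    obtain ⟨j, hj1, hj2⟩ := ih
    rcases hs with hs | hs
    · exact ⟨j, hj1, hs ▸ hj2.trans' (con_left _)⟩
    · by_cases h1 : ∃ k, b = L k
      · obtain ⟨k, rfl⟩ := h1
        have h2 : Con (P8 Q J L) bar8 i k := by
          rcases eq_or_oth hQ hc.Jinv (hc.fix j) (hc.fix k) hj2 with h3 | h3
          · rw [hc.inj h3]; exact hj1
          · have h4 := p8_eq hc.inj h3.symm
            rw [← h4]; exact hj1.trans' (con_left _)
        exact ⟨bar8 k, h2.trans' (con_right _), by rw [hs, hc.bar]; exact Con.refl' _⟩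
      · push Not at h1
        refine ⟨j, hj1, ?_⟩
        rw [hs, ← hc.off b h1]
        exact hj2.trans' (con_right _)

theorem loc_con {i k : Fin 8} (h : Con Q B (L i) (L k)) : Con (P8 Q J L) bar8 i k := by
  obtain ⟨j, hj1, hj2⟩ := loc_of_con hQ hc h
  rcases eq_or_oth hQ hc.Jinv (hc.fix j) (hc.fix k) hj2 with h3 | h3
  · rw [hc.inj h3]; exact hj1
  · have h4 := p8_eq hc.inj h3.symm
    rw [← h4]; exact hj1.trans' (con_left _)

theorem loc_term {i : Fin 8} {t : E} (ht : B t = t) (h : Con Q B (L i) t) :
    ∃ j, Con (P8 Q J L) bar8 i j ∧ P8 Q J L j = j := by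
  obtain ⟨j, hj1, hj2⟩ := loc_of_con hQ hc h
  exact ⟨j, hj1, p8_of_term hQ hc ht hj2⟩

theorem term_of_loc {i j : Fin 8} (h : Con (P8 Q J L) bar8 i j) (hj : P8 Q J L j = j) :
    ∃ t, B t = t ∧ Con Q B (L i) t :=
  ⟨_, p8_term hQ hc hj, (con_of_loc hQ hc h).trans' (hc.con_of_J (con_oth _))⟩

end P8

/-! ### What a change of the outside keeps -/

section Rel

variable {E : Type*} [Finite E] {B J : E → E} {L : Fin 8 → E}

/-- connected to a terminal -/
def TC (Q B : E → E) (e : E) : Prop := ∃ t, B t = t ∧ Con Q B e t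

/-- no terminal is joined to a terminal -/
def Act (Q B : E → E) : Prop := ∀ t, B t = t → B (Q t) ≠ Q t

/-- every end is connected to `R` or to a terminal -/
def Cov (Q B : E → E) (R : Finset E) : Prop :=
  ∀ e, (∃ r ∈ R, Con Q B e r) ∨ TC Q B e

/-- `Q'` is obtained from `Q` by surgeries at the ends `L` -/
structure Rel (B J : E → E) (L : Fin 8 → E) (Q Q' : E → E) : Prop where
  pair : IsPair Q'
  act : Act Q B → Act Q' B
  out : ∀ e, (∃ a, J a = a ∧ Con Q J a e) → ∃ a, J a = a ∧ Con Q' J a e
  unt : ∀ e, (∀ i, ¬ Con Q B e (L i)) → ∀ f, (Con Q' B e f ↔ Con Q B e f)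

theorem Rel.refl' {Q : E → E} (hQ : IsPair Q) : Rel B J L Q Q :=
  ⟨hQ, id, fun _ h => h, fun _ _ _ => Iff.rfl⟩

theorem Rel.trans' {Q Q' Q'' : E → E} (h : Rel B J L Q Q') (h' : Rel B J L Q' Q'') :
    Rel B J L Q Q'' := by
  refine ⟨h'.pair, fun hh => h'.act (h.act hh), fun e he => h'.out e (h.out e he), ?_⟩
  intro e he f
  have h1 : ∀ i, ¬ Con Q' B e (L i) := by
    intro i hi
    exact he i ((h.unt e he _).1 hi)
  rw [h'.unt e h1, h.unt e he]

variable (hc : CutAt B J L)

include hc

theorem Rel.of_sg [DecidableEq E] {Q : E → E} (hQ : IsPair Q) {u v : Fin 8} (huv : u ≠ v)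
    (hP : P8 Q J L u ≠ v) (hP' : ¬ (P8 Q J L u = u ∧ P8 Q J L v = v)) :
    Rel B J L Q (sg (L u) (L v) Q) := by
  have hJ := hc.Jinv
  have hu := hc.fix u
  have hv := hc.fix v
  have hLuv : L u ≠ L v := fun h => huv (hc.inj h)
  have hov : oth Q J (L u) ≠ L v := fun h => hP (p8_eq hc.inj h)
  refine ⟨sg_pair hQ, ?_, ?_, ?_⟩
  · intro ha t ht ht'
    have n1 : t ≠ L u := hc.term_ne ht u
    have n2 : t ≠ L v := hc.term_ne ht v
    by_cases h1 : t = Q (L u)
    · rw [h1, sg_fu hQ hLuv] at ht'
      apply hP'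
      constructor
      · refine p8_of_term hQ hc ht ?_
        rw [h1]; exact con_left _
      · refine p8_of_term hQ hc ht' ?_
        exact con_left _
    · by_cases h2 : t = Q (L v)
      · rw [h2, sg_fv hQ hLuv] at ht'
        apply hP'
        constructor
        · refine p8_of_term hQ hc ht' ?_
          exact con_left _
        · refine p8_of_term hQ hc ht ?_
          rw [h2]; exact con_left _
      · rw [sg_other hQ n1 n2 h1 h2] at ht'
        exact ha t ht ht'
  · intro e he
    exact out_sg hQ hJ hu hv hLuv hov he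
  · intro e he
    -- points connected to `e` are not touched
    have key : ∀ f, Con Q B e f → sg (L u) (L v) Q f = Q f := by
      intro f hf
      apply sg_other hQ
      · intro h; exact he u (h ▸ hf)
      · intro h; exact he v (h ▸ hf)
      · intro h
        apply he u
        have h6 := (h ▸ hf : Con Q B e (Q (L u))).trans' (con_left _)
        rwa [hQ.1] at h6
      · intro h
        apply he v
        have h6 := (h ▸ hf : Con Q B e (Q (L v))).trans' (con_left _)
        rwa [hQ.1] at h6
    intro f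
    constructor
    · intro h
      induction h with
      | refl => exact Con.refl' _
      | tail _ hs ih =>
        rename_i b c _
        refine ih.trans' ?_
        rcases hs with hs | hs
        · rw [hs, key b ih]; exact con_left _
        · rw [hs]; exact con_right _
    · intro h
      induction h with
      | refl => exact Con.refl' _
      | tail hb hs ih =>
        rename_i b c
        refine ih.trans' ?_
        rcases hs with hs | hs
        · rw [hs, ← key b hb]; exact con_left _
        · rw [hs]; exact con_right _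

/-- local: connected to a fixed point -/
def TL (P : Fin 8 → Fin 8) (i : Fin 8) : Prop := ∃ j, Con P bar8 i j ∧ P j = j

/-- local: pairwise not connected and not connected to a terminal -/
def NC (P : Fin 8 → Fin 8) (D : Finset (Fin 8)) : Prop :=
  (∀ i ∈ D, ∀ j ∈ D, i ≠ j → ¬ Con P bar8 i j) ∧ ∀ i ∈ D, ¬ TL P i

/-- local: covering -/
def CV (P : Fin 8 → Fin 8) (D : Finset (Fin 8)) : Prop :=
  ∀ i, TL P i ∨ ∃ j ∈ D, Con P bar8 i j

theorem cover_step [DecidableEq E] {Q Q' : E → E} (hQ : IsPair Q) (hr : Rel B J L Q Q')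
    {R : Finset E} (hR : Cov Q B R) {D D' : Finset (Fin 8)} (hD : NC (P8 Q J L) D)
    (hD' : CV (P8 Q' J L) D') :
    ∃ R', Cov Q' B R' ∧ R'.card + D.card ≤ R.card + D'.card := by
  classical
  have hB := hc.inv
  set A : Finset E := R.filter (fun r => ∃ i, Con Q B r (L i)) with hA
  -- the injection of `D` into `A`
  have h1 : ∀ i ∈ D, ∃ r ∈ A, Con Q B (L i) r := by
    intro i hi
    rcases hR (L i) with ⟨r, hr1, hr2⟩ | ⟨t, ht, hit⟩
    · exact ⟨r, Finset.mem_filter.2 ⟨hr1, i, hr2.symm' hQ.1 hB⟩, hr2⟩
    · exfalso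
      obtain ⟨j, hj1, hj2⟩ := loc_term hQ hc ht hit
      exact hD.2 i hi ⟨j, hj1, hj2⟩
  have : Nonempty E := ⟨L 0⟩
  choose! g hg using h1
  have h2 : D.card ≤ A.card := by
    refine Finset.card_le_card_of_injOn g (fun i hi => (hg i hi).1) ?_
    intro i hi j hj hij
    by_contra hne
    apply hD.1 i hi j hj hne
    apply loc_con hQ hc
    have h3 := (hg i hi).2
    have h4 := (hg j hj).2
    have hij' : g i = g j := hij
    rw [hij'] at h3
    exact h3.trans' (h4.symm' hQ.1 hB)
  refine ⟨(R \ A) ∪ D'.image L, ?_, ?_⟩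
  · intro e
    by_cases h3 : ∀ i, ¬ Con Q B e (L i)
    · rcases hR e with ⟨r, hr1, hr2⟩ | ⟨t, ht, het⟩
      · left
        refine ⟨r, ?_, (hr.unt e h3 r).2 hr2⟩
        refine Finset.mem_union_left _ (Finset.mem_sdiff.2 ⟨hr1, ?_⟩)
        intro h4
        obtain ⟨-, i, hi⟩ := Finset.mem_filter.1 h4
        exact h3 i (hr2.trans' hi)
      · right
        exact ⟨t, ht, (hr.unt e h3 t).2 het⟩
    · push Not at h3
      obtain ⟨i, hi⟩ := h3
      -- `e` is joined outside to a cut end
      obtain ⟨j, -, hj⟩ := loc_of_con hQ hc (hi.symm' hQ.1 hB)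
      obtain ⟨a, ha, hae⟩ := hr.out e ⟨L j, hc.fix j, hj⟩
      have hae' : Con Q' B e a := (hc.con_of_J hae).symm' hr.pair.1 hB
      rcases hc.fix_cases ha with ⟨k, rfl⟩ | ha'
      · rcases hD' k with ⟨m, hm1, hm2⟩ | ⟨m, hm1, hm2⟩
        · right
          obtain ⟨t, ht, hkt⟩ := term_of_loc hr.pair hc hm1 hm2
          exact ⟨t, ht, hae'.trans' hkt⟩
        · left
          exact ⟨L m, Finset.mem_union_right _ (Finset.mem_image_of_mem _ hm1),
            hae'.trans' (con_of_loc hr.pair hc hm2)⟩
      · right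
        exact ⟨a, ha', hae'⟩
  · have h3 := Finset.card_union_le (R \ A) (D'.image L)
    have h4 : (D'.image L).card ≤ D'.card := Finset.card_image_le
    have h5 : (R \ A).card + A.card = R.card := by
      rw [Finset.card_sdiff_add_card_eq_card (Finset.filter_subset _ _)]
    omega

end Rel

end

end Pool.Agent.Lib.MP_688fd0_co.SQ5.H69
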