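import Mathlib
import Pool.Agent.Lib.MP_688fd0_co.SQ5.H64.Win
import Pool.Agent.Lib.MP_688fd0_co.SQ5.H69.StarA

/-!
MP_688fd0_co, type C: STAR for a whole strand graph, part C: inserting a P3 is two surgeries.
-/

namespace Pool.Agent.Lib.MP_688fd0_co.SQ5.H69

open Function Equiv
open Pool.Agent.Lib.MP_688fd0_co.SQ5.H64

set_option linter.unusedSectionVars false

noncomputable section

variable {S T : Type*}

/-- the inside `d`, the terminals `T` are left alone -/
def jd (T : Type*) (d : S × Bool → S × Bool) : T ⊕ (S × Bool) → T ⊕ (S × Bool) := Sum.map id d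

/-- outer ends of the two level picture -/
def oE : T ⊕ (S × Bool) → T ⊕ ((S × Bool) × Bool) := Sum.map id out

/-- the outside `Q` together with the gluing -/
def gT (Q : T ⊕ (S × Bool) → T ⊕ (S × Bool)) :
    T ⊕ ((S × Bool) × Bool) → T ⊕ ((S × Bool) × Bool)
  | Sum.inl t => oE (Q (Sum.inl t))
  | Sum.inr ((s, true), false) => Sum.inr ((s, false), true)
  | Sum.inr ((s, false), true) => Sum.inr ((s, true), false)
  | Sum.inr ((s, false), false) => oE (Q (Sum.inr (s, false)))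
  | Sum.inr ((s, true), true) => oE (Q (Sum.inr (s, true)))

theorem gT_oE (Q : T ⊕ (S × Bool) → T ⊕ (S × Bool)) (e : T ⊕ (S × Bool)) :
    gT Q (oE e) = oE (Q e) := by
  rcases e with t | ⟨s, _ | _⟩ <;> rfl

theorem gT_of_ne {Q : T ⊕ (S × Bool) → T ⊕ (S × Bool)} {p : (S × Bool) × Bool}
    (h : glu p ≠ p) : gT Q (Sum.inr p) = Sum.inr (glu p) := by
  rcases p with ⟨⟨s, _ | _⟩, _ | _⟩
  · exact absurd rfl h
  · rfl
  · rfl
  · exact absurd rfl h

theorem gT_inv {Q : T ⊕ (S × Bool) → T ⊕ (S × Bool)} (hQ : ∀ e, Q (Q e) = e)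
    (y : T ⊕ ((S × Bool) × Bool)) : gT Q (gT Q y) = y := by
  rcases y with t | ⟨⟨s, _ | _⟩, _ | _⟩
  · change gT Q (oE (Q (Sum.inl t))) = _
    rw [gT_oE, hQ]; rfl
  · change gT Q (oE (Q (Sum.inr (s, false)))) = _
    rw [gT_oE, hQ]; rfl
  · rfl
  · rfl
  · change gT Q (oE (Q (Sum.inr (s, true)))) = _
    rw [gT_oE, hQ]; rfl

theorem map_inv {X : Type*} {f : X → X} (hf : ∀ x, f (f x) = x) (y : T ⊕ X) :
    Sum.map id f (Sum.map id f y) = y := by
  rcases y with t | x
  · rfl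
  · exact congrArg Sum.inr (hf x)

/-- connections in a disjoint union -/
theorem con_sum_inl {X : Type*} {f g : X → X} {t : T} {z : T ⊕ X}
    (h : Con (Sum.map id f) (Sum.map id g) (Sum.inl t) z) : z = Sum.inl t := by
  induction h with
  | refl => rfl
  | tail _ hs ih => rcases hs with hs | hs <;> rw [hs, ih] <;> rfl

theorem con_sum_inr {X : Type*} {f g : X → X} {p : X} {z : T ⊕ X}
    (h : Con (Sum.map id f) (Sum.map id g) (Sum.inr p) z) :
    ∃ q, z = Sum.inr q ∧ Con f g p q := by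
  induction h with
  | refl => exact ⟨p, rfl, Con.refl' _⟩
  | tail _ hs ih =>
    obtain ⟨q, rfl, hq⟩ := ih
    rcases hs with hs | hs
    · exact ⟨f q, hs, hq.trans' (con_left _)⟩
    · exact ⟨g q, hs, hq.trans' (con_right _)⟩

section Level

variable [Finite S] {d e : S × Bool → S × Bool} {Q : T ⊕ (S × Bool) → T ⊕ (S × Bool)}

/-- the two level picture -/
abbrev CY (d e : S × Bool → S × Bool) (Q : T ⊕ (S × Bool) → T ⊕ (S × Bool)) :
    T ⊕ ((S × Bool) × Bool) → T ⊕ ((S × Bool) × Bool) → Prop :=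
  Con (Sum.map id (lvl d e)) (gT Q)

theorem level_key (hd : IsPair d) (he : IsPair e) {a : T ⊕ (S × Bool)}
    {z : T ⊕ ((S × Bool) × Bool)} (h : CY d e Q (oE a) z) :
    ∃ w, Con (Sum.map id (lvl d e)) (Sum.map id glu) (oE w) z ∧
      Con Q (jd T (stk d e)) a w := by
  induction h with
  | refl => exact ⟨a, Con.refl' _, Con.refl' _⟩
  | tail _ hs ih =>
    rename_i b c _
    obtain ⟨w, hw1, hw2⟩ := ih
    rcases hs with hs | hs
    · exact ⟨w, hs ▸ hw1.trans' (con_left _), hw2⟩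
    · rcases w with t | w
      · have h1 : b = Sum.inl t := con_sum_inl hw1
        refine ⟨Q (Sum.inl t), ?_, hw2.trans' (con_left _)⟩
        rw [hs, h1]
        exact Con.refl' _
      · obtain ⟨q, rfl, hq⟩ := con_sum_inr hw1
        by_cases h : glu q = q
        · have ha := out_of_glu h
          rw [← ha] at hq
          have h3 : Con Q (jd T (stk d e)) a (Sum.inr q.1) := by
            rcases eq_or_stk hd he hq with h4 | h4
            · rw [h4]; exact hw2
            · refine hw2.trans' ?_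
              have h5 := con_right (f := Q) (g := jd T (stk d e)) (Sum.inr w)
              rw [h4]; exact h5
          refine ⟨Q (Sum.inr q.1), ?_, h3.trans' (con_left _)⟩
          have h6 : (Sum.inr q : T ⊕ ((S × Bool) × Bool)) = oE (Sum.inr q.1) := by
            rw [← ha]; rfl
          rw [hs, h6, gT_oE]
          exact Con.refl' _
        · refine ⟨Sum.inr w, ?_, hw2⟩
          rw [hs, gT_of_ne h]
          exact hw1.trans' (con_right _)

theorem level_term (hd : IsPair d) (he : IsPair e) {a : T ⊕ (S × Bool)} {t : T}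
    (h : CY d e Q (oE a) (Sum.inl t)) : Con Q (jd T (stk d e)) a (Sum.inl t) := by
  obtain ⟨w, hw1, hw2⟩ := level_key hd he h
  rcases w with t' | w
  · have h1 : t = t' := Sum.inl_injective (con_sum_inl hw1)
    rw [h1]; exact hw2
  · obtain ⟨q, h1, -⟩ := con_sum_inr hw1
    cases h1

theorem level_noLoop (hd : IsPair d) (he : IsPair e) {q : (S × Bool) × Bool} {t : T}
    (h : CY d e Q (Sum.inl t) (Sum.inr q)) : ∃ p, Con (lvl d e) glu (out p) q := by
  obtain ⟨w, hw1, -⟩ := level_key (a := Sum.inl t) hd he h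
  rcases w with t' | w
  · have h1 := con_sum_inl hw1
    cases h1
  · obtain ⟨q', h1, h2⟩ := con_sum_inr hw1
    cases h1
    exact ⟨w, h2⟩

end Level

/-! ### The insertion -/

/-- `p` is a P3 whose pair `{x, y}` is on the side `b` and whose pair `{x, z}` is on the other
side -/
structure IsP3 (b : Bool) (x y z : S) (p : S × Bool → S × Bool) : Prop where
  xb : p (x, b) = (y, b)
  xn : p (x, !b) = (z, !b)
  zb : p (z, b) = (y, !b)
  yn : p (y, !b) = (z, b)
  st : ∀ s, s ≠ x → s ≠ y → s ≠ z → p (s, !b) = (s, b)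

theorem isP3_false [DecidableEq S] {x y z : S} (hxy : x ≠ y) (hxz : x ≠ z) (hyz : y ≠ z) :
    IsP3 false x y z (p3 x y z) := by
  have e1 : swap y z x = x := swap_apply_of_ne_of_ne hxy hxz
  refine ⟨win_low_left _ _ _, ?_, ?_, ?_, ?_⟩
  · have h := win_up_left x y (swap y z)
    rw [e1, swap_apply_left] at h
    exact h
  · have h := win_low (σ := swap y z) hxz.symm hyz.symm
    rw [swap_apply_right] at h
    exact h
  · have h := win_up (σ := swap y z) hxz.symm hyz.symm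
    rw [swap_apply_right] at h
    exact h
  · intro s h1 h2 h3
    have h := win_up (σ := swap y z) h1 h2
    rw [swap_apply_of_ne_of_ne h2 h3] at h
    exact h

theorem isP3_true [DecidableEq S] {x y z : S} (hxy : x ≠ y) (hxz : x ≠ z) (hyz : y ≠ z) :
    IsP3 true x y z (p3 x z y) := by
  have e1 : swap z y x = x := swap_apply_of_ne_of_ne hxz hxy
  refine ⟨?_, win_low_left _ _ _, ?_, ?_, ?_⟩
  · have h := win_up_left x z (swap z y)
    rw [e1, swap_apply_left] at h
    exact h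
  · have h := win_up (σ := swap z y) hxy.symm hyz
    rw [swap_apply_right] at h
    exact h
  · have h := win_low (σ := swap z y) hxy.symm hyz
    rw [swap_apply_right] at h
    exact h
  · intro s h1 h2 h3
    have h := win_low (σ := swap z y) h1 h3
    rw [swap_apply_of_ne_of_ne h3 h2] at h
    exact h

section Insert

variable [Finite S] [DecidableEq S] [DecidableEq T] {d0 d1 p d' : S × Bool → S × Bool}
  {Q : T ⊕ (S × Bool) → T ⊕ (S × Bool)} {b : Bool} {x y z : S}

/-- the ends of the level of `d'` -/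
def phi (b : Bool) : T ⊕ (S × Bool) → T ⊕ ((S × Bool) × Bool) := Sum.map id (fun q => (q, !b))

/-- the new outside: two surgeries -/
def newQ (b : Bool) (x y z : S) (Q : T ⊕ (S × Bool) → T ⊕ (S × Bool)) :
    T ⊕ (S × Bool) → T ⊕ (S × Bool) :=
  sg (Sum.inr (x, b)) (Sum.inr (z, b)) (sg (Sum.inr (x, b)) (Sum.inr (y, b)) Q)

theorem gT_glue (Q : T ⊕ (S × Bool) → T ⊕ (S × Bool)) (b : Bool) (s : S) :
    gT Q (Sum.inr ((s, b), !b)) = Sum.inr ((s, !b), b) := by
  cases b <;> rfl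

theorem phi_nb (b : Bool) (s : S) :
    (phi b (Sum.inr (s, !b)) : T ⊕ ((S × Bool) × Bool)) = oE (Sum.inr (s, !b)) := rfl

theorem oE_b (b : Bool) (s : S) :
    (oE (Sum.inr (s, b)) : T ⊕ ((S × Bool) × Bool)) = Sum.inr ((s, b), b) := rfl

variable (hQ : IsPair Q) (hxy : x ≠ y) (hxz : x ≠ z) (hyz : y ≠ z)
  (hp : IsP3 b x y z p) (hlb : ∀ q, lvl d0 d1 (q, b) = (p q, b))
  (hln : ∀ q, lvl d0 d1 (q, !b) = (d' q, !b))

include hp hlb

/-- a strand of `p` from the level of `d'` -/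
theorem strand {s : S} {q : S × Bool} (h : p (s, !b) = q) :
    CY d0 d1 Q (phi b (Sum.inr (s, b))) (Sum.inr (q, b)) := by
  refine (con_right _).trans' ?_
  have h1 : gT Q (phi b (Sum.inr (s, b))) = Sum.inr ((s, !b), b) := gT_glue Q b s
  rw [h1]
  refine Relation.ReflTransGen.single (Or.inl ?_)
  change _ = Sum.inr (lvl d0 d1 ((s, !b), b))
  rw [hlb, h]

/-- plugs and ends of the level agree away from the P3 -/
theorem phi_oE {e : T ⊕ (S × Bool)} (h1 : e ≠ Sum.inr (x, b)) (h2 : e ≠ Sum.inr (y, b))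
    (h3 : e ≠ Sum.inr (z, b)) : CY d0 d1 Q (phi b e) (oE e) := by
  rcases e with t | ⟨s, c⟩
  · exact Con.refl' _
  · rcases Bool.eq_or_eq_not c b with h | h
    · subst h
      refine strand hp hlb (hp.st s ?_ ?_ ?_)
      · rintro rfl; exact h1 rfl
      · rintro rfl; exact h2 rfl
      · rintro rfl; exact h3 rfl
    · subst h
      exact Con.refl' _

theorem plug_xy : CY d0 d1 Q (oE (Sum.inr (x, b))) (oE (Sum.inr (y, b))) := by
  refine Relation.ReflTransGen.single (Or.inl ?_)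
  change _ = Sum.inr (lvl d0 d1 ((x, b), b))
  rw [hlb, hp.xb]
  rfl

theorem phi_xz : CY d0 d1 Q (phi b (Sum.inr (x, b))) (phi b (Sum.inr (z, b))) := by
  refine (strand hp hlb hp.xn).trans' (Relation.ReflTransGen.single (Or.inr ?_))
  have := gT_glue Q (!b) z
  simp only [Bool.not_not] at this
  rw [this]
  rfl

theorem phi_yz : CY d0 d1 Q (phi b (Sum.inr (y, b))) (oE (Sum.inr (z, b))) :=
  strand hp hlb hp.yn

theorem oE_Q (e : T ⊕ (S × Bool)) : CY d0 d1 Q (oE e) (oE (Q e)) := by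
  rw [← gT_oE]; exact con_right _

include hQ hxy

variable (hd0 : IsPair d0) (hd1 : IsPair d1)

include hd0 hd1

omit hxy in
theorem cy_symm {u v : T ⊕ ((S × Bool) × Bool)} (h : CY d0 d1 Q u v) : CY d0 d1 Q v u :=
  Con.symm' (map_inv (lvl_pair hd0 hd1).1) (gT_inv hQ.1) h

/-- the plugs and the first surgery -/
theorem plug_Q1 (e : T ⊕ (S × Bool)) :
    CY d0 d1 Q (oE e) (oE (sg (Sum.inr (x, b)) (Sum.inr (y, b)) Q e)) := by
  have hne : (Sum.inr (x, b) : T ⊕ (S × Bool)) ≠ Sum.inr (y, b) := by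
    intro h'
    exact hxy (congrArg Prod.fst (Sum.inr_injective h'))
  have hpp : CY d0 d1 Q (oE (Sum.inr (x, b))) (oE (Sum.inr (y, b))) := plug_xy hp hlb
  have hpp' : CY d0 d1 Q (oE (Sum.inr (y, b))) (oE (Sum.inr (x, b))) :=
    cy_symm hQ hp hlb hd0 hd1 hpp
  by_cases h1 : e = Sum.inr (x, b)
  · rw [h1, sg_left hQ hne]; exact hpp
  by_cases h2 : e = Sum.inr (y, b)
  · rw [h2, sg_right hQ hne]; exact hpp'
  by_cases h3 : e = Q (Sum.inr (x, b))
  · rw [h3, sg_fu hQ hne]
    have h4 := oE_Q (d0 := d0) (d1 := d1) (Q := Q) hp hlb (Q (Sum.inr (x, b)))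
    rw [hQ.1] at h4
    exact h4.trans' (hpp.trans' (oE_Q hp hlb _))
  by_cases h4 : e = Q (Sum.inr (y, b))
  · rw [h4, sg_fv hQ hne]
    have h4 := oE_Q (d0 := d0) (d1 := d1) (Q := Q) hp hlb (Q (Sum.inr (y, b)))
    rw [hQ.1] at h4
    exact h4.trans' (hpp'.trans' (oE_Q hp hlb _))
  rw [sg_other hQ h1 h2 h3 h4]
  exact oE_Q hp hlb _

include hxz hyz

/-- the new outside seen from the level of `d'` -/
theorem phi_newQ (e : T ⊕ (S × Bool)) :
    CY d0 d1 Q (phi b e) (phi b (newQ b x y z Q e)) := by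
  have hXY : (Sum.inr (x, b) : T ⊕ (S × Bool)) ≠ Sum.inr (y, b) := fun h' =>
    hxy (congrArg Prod.fst (Sum.inr_injective h'))
  have hXZ : (Sum.inr (x, b) : T ⊕ (S × Bool)) ≠ Sum.inr (z, b) := fun h' =>
    hxz (congrArg Prod.fst (Sum.inr_injective h'))
  have hYZ : (Sum.inr (y, b) : T ⊕ (S × Bool)) ≠ Sum.inr (z, b) := fun h' =>
    hyz (congrArg Prod.fst (Sum.inr_injective h'))
  have sym : ∀ {u v}, CY d0 d1 Q u v → CY d0 d1 Q v u := fun h => cy_symm hQ hp hlb hd0 hd1 h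
  have hplug := plug_Q1 (T := T) hQ hxy hp hlb hd0 hd1
  unfold newQ
  set Q1 := sg (Sum.inr (x, b)) (Sum.inr (y, b)) Q with hQ1
  have hQ1p : IsPair Q1 := sg_pair hQ
  have e1 : Q1 (Sum.inr (x, b)) = Sum.inr (y, b) := sg_left hQ hXY
  have e2 : Q1 (Sum.inr (y, b)) = Sum.inr (x, b) := sg_right hQ hXY
  -- the path from the end of `y` to the partner of `z`
  have hyz' : CY d0 d1 Q (phi b (Sum.inr (y, b))) (phi b (Q1 (Sum.inr (z, b)))) := by
    refine (phi_yz hp hlb).trans' ((hplug _).trans' (sym (phi_oE hp hlb ?_ ?_ ?_)))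
    · intro h
      have h2 := congrArg Q1 h
      rw [hQ1p.1, e1] at h2
      exact hYZ h2.symm
    · intro h
      have h2 := congrArg Q1 h
      rw [hQ1p.1, e2] at h2
      exact hXZ h2.symm
    · exact hQ1p.2 _
  by_cases h1 : e = Sum.inr (x, b)
  · rw [h1, sg_left hQ1p hXZ]; exact phi_xz hp hlb
  by_cases h2 : e = Sum.inr (z, b)
  · rw [h2, sg_right hQ1p hXZ]; exact sym (phi_xz hp hlb)
  by_cases h3 : e = Q1 (Sum.inr (x, b))
  · rw [h3, sg_fu hQ1p hXZ, e1]; exact hyz'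
  by_cases h4 : e = Q1 (Sum.inr (z, b))
  · rw [h4, sg_fv hQ1p hXZ, e1]; exact sym hyz'
  rw [sg_other hQ1p h1 h2 h3 h4]
  rw [e1] at h3
  refine (phi_oE hp hlb h1 h3 h2).trans' ((hplug _).trans' (sym (phi_oE hp hlb ?_ ?_ ?_)))
  · intro h
    have h5 := congrArg Q1 h
    rw [hQ1p.1, e1] at h5
    exact h3 h5
  · intro h
    have h5 := congrArg Q1 h
    rw [hQ1p.1, e2] at h5
    exact h1 h5
  · intro h
    have h5 := congrArg Q1 h
    rw [hQ1p.1] at h5
    exact h4 h5

omit hp hQ hxy hxz hyz hd0 hd1 hlb in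
include hln in
theorem phi_d (e : T ⊕ (S × Bool)) : CY d0 d1 Q (phi b e) (phi b (jd T d' e)) := by
  rcases e with t | q
  · exact Con.refl' _
  · refine Relation.ReflTransGen.single (Or.inl ?_)
    change _ = Sum.inr (lvl d0 d1 (q, !b))
    rw [hln]
    rfl

/-- everything is connected to the level of `d'` -/
theorem all_phi (hQxy : Q (Sum.inr (x, b)) ≠ Sum.inr (y, b)) (w : T ⊕ ((S × Bool) × Bool)) :
    ∃ e, CY d0 d1 Q w (phi b e) := by
  have sym : ∀ {u v}, CY d0 d1 Q u v → CY d0 d1 Q v u := fun h => cy_symm hQ hp hlb hd0 hd1 h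
  have plug : ∀ e : T ⊕ (S × Bool), e ≠ Sum.inr (x, b) → e ≠ Sum.inr (y, b) →
      ∃ e', CY d0 d1 Q (oE e) (phi b e') := by
    intro e h1 h2
    by_cases h3 : e = Sum.inr (z, b)
    · exact ⟨_, by rw [h3]; exact sym (phi_yz hp hlb)⟩
    · exact ⟨e, sym (phi_oE hp hlb h1 h2 h3)⟩
  have plugY : ∃ e', CY d0 d1 Q (oE (Sum.inr (y, b))) (phi b e') := by
    have h1 : Q (Sum.inr (y, b)) ≠ Sum.inr (x, b) := by
      intro h
      apply hQxy
      rw [← h, hQ.1]
    obtain ⟨e', he'⟩ := plug _ h1 (hQ.2 _)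
    exact ⟨e', (oE_Q hp hlb _).trans' he'⟩
  have plugs : ∀ e : T ⊕ (S × Bool), ∃ e', CY d0 d1 Q (oE e) (phi b e') := by
    intro e
    by_cases h2 : e = Sum.inr (y, b)
    · rw [h2]; exact plugY
    · by_cases h1 : e = Sum.inr (x, b)
      · obtain ⟨e', he'⟩ := plugY
        exact ⟨e', by rw [h1]; exact (plug_xy hp hlb).trans' he'⟩
      · exact plug e h1 h2
  rcases w with t | ⟨⟨s, c⟩, c'⟩
  · exact ⟨Sum.inl t, Con.refl' _⟩
  · rcases Bool.eq_or_eq_not c' b with h | h
    · rcases Bool.eq_or_eq_not c b with h' | h'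
      · rw [h, h']
        exact plugs (Sum.inr (s, b))
      · rw [h, h']
        refine ⟨Sum.inr (s, b), Relation.ReflTransGen.single (Or.inr ?_)⟩
        have := gT_glue Q (!b) s
        simp only [Bool.not_not] at this
        rw [this]
        rfl
    · rw [h]
      exact ⟨Sum.inr (s, c), Con.refl' _⟩

include hln

/-- THE INSERTION: a filling of the new outside gives a filling of the old one -/
theorem insert_main (hQxy : Q (Sum.inr (x, b)) ≠ Sum.inr (y, b))
    (h : ∀ e, ∃ t, Con (newQ b x y z Q) (jd T d') e (Sum.inl t)) :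
    NoLoop d0 d1 ∧ ∀ e, ∃ t, Con Q (jd T (stk d0 d1)) e (Sum.inl t) := by
  have sym : ∀ {u v}, CY d0 d1 Q u v → CY d0 d1 Q v u := fun h => cy_symm hQ hp hlb hd0 hd1 h
  have tr : ∀ e f : T ⊕ (S × Bool), Con (newQ b x y z Q) (jd T d') e f →
      CY d0 d1 Q (phi b e) (phi b f) := by
    intro e f hef
    induction hef with
    | refl => exact Con.refl' _
    | tail _ hs ih =>
      refine ih.trans' ?_
      rcases hs with hs | hs
      · rw [hs]; exact phi_newQ hQ hxy hxz hyz hp hlb hd0 hd1 _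
      · rw [hs]; exact phi_d hln _
  have all : ∀ w : T ⊕ ((S × Bool) × Bool), ∃ t, CY d0 d1 Q w (Sum.inl t) := by
    intro w
    obtain ⟨e, he⟩ := all_phi hQ hxy hxz hyz hp hlb hd0 hd1 hQxy w
    obtain ⟨t, ht⟩ := h e
    exact ⟨t, he.trans' (tr _ _ ht)⟩
  constructor
  · intro q
    obtain ⟨t, ht⟩ := all (Sum.inr q)
    exact level_noLoop hd0 hd1 (sym ht)
  · intro e
    obtain ⟨t, ht⟩ := all (oE e)
    exact ⟨t, level_term hd0 hd1 ht⟩

end Insert

/-! ### Stacks of P3's -/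

section Stk

variable [Finite S] [DecidableEq S] [DecidableEq T] (Λ : SimpleGraph S)

/-- loopless stacks of flat P3's of the graph `Λ` with `n` layers -/
inductive Stk : ℕ → (S × Bool → S × Bool) → Prop
  | nil : Stk 0 idd
  | low {n : ℕ} {d : S × Bool → S × Bool} {x y z : S} : Stk n d → Λ.Adj x y → Λ.Adj x z →
      y ≠ z → NoLoop (p3 x y z) d → Stk (n + 1) (stk (p3 x y z) d)
  | top {n : ℕ} {d : S × Bool → S × Bool} {x y z : S} : Stk n d → Λ.Adj x y → Λ.Adj x z →
      y ≠ z → NoLoop d (p3 x y z) → Stk (n + 1) (stk d (p3 x y z))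

variable {Λ}

omit [DecidableEq T] in
theorem Stk.pair {n : ℕ} {d : S × Bool → S × Bool} (h : Stk Λ n d) : IsPair d := by
  induction h with
  | nil => exact idd_pair
  | low _ h1 _ _ _ ih => exact stk_pair (p3_pair h1.ne) ih
  | top _ h1 _ _ _ ih => exact stk_pair ih (p3_pair h1.ne)

variable (Λ)

/-- the outside `Q` can be filled with at most `n` layers such that everything is connected to
the terminals -/
def Good (n : ℕ) (Q : T ⊕ (S × Bool) → T ⊕ (S × Bool)) : Prop :=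
  ∃ m ≤ n, ∃ d, Stk Λ m d ∧ ∀ e, ∃ t, Con Q (jd T d) e (Sum.inl t)

variable {Λ}

theorem Good.step {n : ℕ} {Q : T ⊕ (S × Bool) → T ⊕ (S × Bool)} (hQ : IsPair Q) {b : Bool}
    {x y z : S} (hxy : Λ.Adj x y) (hxz : Λ.Adj x z) (hyz : y ≠ z)
    (hQxy : Q (Sum.inr (x, b)) ≠ Sum.inr (y, b)) (h : Good Λ n (newQ b x y z Q)) :
    Good Λ (n + 1) Q := by
  obtain ⟨m, hm, d, hd, hall⟩ := h
  have hdp := hd.pair
  cases b with
  | false =>
    have h1 := insert_main (d0 := p3 x y z) (d1 := d) (p := p3 x y z) (d' := d)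
      hQ hxy.ne hxz.ne hyz (isP3_false hxy.ne hxz.ne hyz) (fun _ => rfl) (fun _ => rfl)
      (p3_pair hxy.ne) hdp hQxy hall
    exact ⟨m + 1, by omega, _, Stk.low hd hxy hxz hyz h1.1, h1.2⟩
  | true =>
    have h1 := insert_main (d0 := d) (d1 := p3 x z y) (p := p3 x z y) (d' := d)
      hQ hxy.ne hxz.ne hyz (isP3_true hxy.ne hxz.ne hyz) (fun _ => rfl) (fun _ => rfl)
      hdp (p3_pair hxz.ne) hQxy hall
    exact ⟨m + 1, by omega, _, Stk.top hd hxz hxy hyz.symm h1.1, h1.2⟩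

end Stk

end

end Pool.Agent.Lib.MP_688fd0_co.SQ5.H69
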