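import Mathlib
import Pool.Agent.Lib.MP_688fd0_co.SQ5.H64.Star
import Pool.Agent.Lib.MP_688fd0_co.SQ5.H69.StarA

/-!
MP_688fd0_co, type C: STAR for a whole strand graph, part B: the finite check on a star with
four strands (centre `0`, leaves `1, 2, 3`; the end `i` is the lower end of the strand `i`, the
end `4 + i` the upper end, `i < 4`). All 764 involutions of the eight ends.
-/

namespace Pool.Agent.Lib.MP_688fd0_co.SQ5.H69

open Function
open Pool.Agent.Lib.MP_688fd0_co.SQ5.H64

set_option linter.unusedSectionVars false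

/-! ### Codes -/

/-- the other end -/
def bn (x : ℕ) : ℕ := (x + 4) % 8

/-- mask of the points `x, P x, bar (P x), ...` -/
def rm (q : ℕ) : ℕ → ℕ → ℕ
  | 0, x => 2 ^ x
  | n + 1, x => 2 ^ x ||| (2 ^ app q x ||| rm q n (bn (app q x)))

/-- the component of `x` -/
def cm (q x : ℕ) : ℕ := rm q 8 x

/-- the numbers `0..7` -/
def bits : List ℕ := [0, 1, 2, 3, 4, 5, 6, 7]

/-- connected -/
def cq (q x y : ℕ) : Bool := Nat.testBit (cm q x) y

/-- the components are closed -/
def clo (q : ℕ) : Bool :=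
  bits.all fun x => bits.all fun z => !(cq q x z) || (cq q x (app q z) && cq q x (bn z))

/-- connected to a fixed point -/
def tq (q x : ℕ) : Bool := bits.any fun y => cq q x y && app q y == y

/-- the smallest elements of the components without fixed points -/
def dl (q : ℕ) : List ℕ :=
  bits.filter fun x => cm q x % 2 ^ x == 0 && !(tq q x)

/-- every end is connected to a fixed point or to `dl` -/
def cvq (q : ℕ) : Bool := bits.all fun y => tq q y || (dl q).any fun x => cq q y x

/-- the alternative -/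
def alt (q q' : ℕ) : Bool :=
  (decide ((dl q').length < (dl q).length) ||
    (decide ((dl q').length ≤ (dl q).length) && !(cq q' 0 2) && (cq q 2 0 || cq q 2 1) &&
      (cq q 3 0 || cq q 3 1))) && clo q && clo q' && cvq q'

/-- surgery on codes -/
def sgc (u v q : ℕ) : ℕ :=
  pc (fun e => if e = u then v else if e = v then u
    else if e = app q u then (if app q v = v then e else app q v)
    else if e = app q v then (if app q u = u then e else app q u)
    else app q e) 8

/-- the surgery is allowed -/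
def okc (u v q : ℕ) : Bool := !(app q u == v) && !(app q u == u && app q v == v)

/-- the check -/
def chkL (q : ℕ) : Bool :=
  cq q 0 1 || (tq q 0 && tq q 1) || alt q q ||
  (okc 0 1 q && alt q (sgc 0 3 (sgc 0 1 q))) ||
  (okc 0 1 q && alt q (sgc 0 2 (sgc 0 1 q))) ||
  (okc 4 5 q && alt q (sgc 4 7 (sgc 4 5 q))) ||
  (okc 0 1 q && okc 4 5 (sgc 0 3 (sgc 0 1 q)) &&
    alt q (sgc 4 7 (sgc 4 5 (sgc 0 3 (sgc 0 1 q)))))

/-- is `a` an admissible image of `k`, given the images of `0..k-1` (fixed points allowed) -/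
def okf (q k a : ℕ) : Bool :=
  (List.range k).all fun j => (app q j == k) == (a == j)

/-- check all involutions which extend the partial one -/
def goL : ℕ → ℕ → ℕ → Bool
  | 0, _, q => chkL q
  | n + 1, k, q => bits.all fun a => !(okf q k a) || goL n (k + 1) (q + a * 8 ^ k)

theorem goL_all : goL 8 0 0 = true := by decide +kernel

/-! ### Soundness -/

/-- `q` is the code of `P` -/
def Mat (P : Fin 8 → Fin 8) (q : ℕ) : Prop := ∀ x : Fin 8, (P x : ℕ) = app q x

theorem bn_bar (x : Fin 8) : (bar8 x : ℕ) = bn x := by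
  revert x; decide

theorem mem_bits {x : ℕ} (h : x < 8) : x ∈ bits := by
  unfold bits; revert x; decide

theorem lt_of_bits {x : ℕ} (h : x ∈ bits) : x < 8 := by
  simp only [bits, List.mem_cons, List.not_mem_nil, or_false] at h
  omega

theorem app_lt8 (q x : ℕ) : app q x < 8 := Nat.mod_lt _ (by norm_num)

section

variable {P P' : Fin 8 → Fin 8} {q q' : ℕ} (hm : Mat P q)

include hm

theorem rm_con : ∀ (n : ℕ) (x z : Fin 8), Nat.testBit (rm q n x) z = true → Con P bar8 x z
  | 0, x, z, h => by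
    rw [rm, testBit_two_pow'] at h
    rw [Fin.ext h]; exact Con.refl' _
  | n + 1, x, z, h => by
    rw [rm, Nat.testBit_or, Nat.testBit_or, Bool.or_eq_true, Bool.or_eq_true,
      testBit_two_pow', testBit_two_pow'] at h
    rcases h with h | h | h
    · rw [Fin.ext h]; exact Con.refl' _
    · have h1 : P x = z := Fin.ext (by rw [hm x, h])
      rw [← h1]; exact con_left _
    · have h1 : (bar8 (P x) : ℕ) = bn (app q x) := by rw [bn_bar, hm x]
      rw [← h1] at h
      exact ((con_left (f := P) (g := bar8) x).trans' (con_right _)).trans'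
        (rm_con n (bar8 (P x)) z h)

theorem cq_con {x z : Fin 8} (h : cq q x z = true) : Con P bar8 x z := rm_con hm 8 x z h

omit hm in
theorem cq_self (x : ℕ) : cq q x x = true := by
  unfold cq cm
  rw [rm, Nat.testBit_or, (testBit_two_pow' x x).2 rfl]
  rfl

theorem clo_con (hc : clo q = true) {x z : Fin 8} (h : Con P bar8 x z) :
    cq q x z = true := by
  unfold clo at hc
  rw [List.all_eq_true] at hc
  have h1 := hc x (mem_bits x.2)
  rw [List.all_eq_true] at h1
  induction h with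
  | refl => exact cq_self _
  | tail _ hs ih =>
    rename_i b c _
    have h2 := h1 b (mem_bits b.2)
    rw [ih] at h2
    simp only [Bool.not_true, Bool.false_or, Bool.and_eq_true] at h2
    rcases hs with hs | hs
    · rw [hs, hm b]; exact h2.1
    · rw [hs, bn_bar]; exact h2.2

theorem tq_TL {x : Fin 8} (h : tq q x = true) : TL P x := by
  unfold tq at h
  rw [List.any_eq_true] at h
  obtain ⟨y, hy, h⟩ := h
  rw [Bool.and_eq_true, beq_iff_eq] at h
  have hy8 := lt_of_bits hy
  refine ⟨⟨y, hy8⟩, cq_con hm h.1, Fin.ext ?_⟩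
  rw [hm ⟨y, hy8⟩]; exact h.2

theorem TL_tq (hc : clo q = true) {x : Fin 8} (h : TL P x) : tq q x = true := by
  obtain ⟨j, hj1, hj2⟩ := h
  unfold tq
  rw [List.any_eq_true]
  refine ⟨j, mem_bits j.2, ?_⟩
  rw [Bool.and_eq_true, beq_iff_eq]
  exact ⟨clo_con hm hc hj1, by rw [← hm j, hj2]⟩

/-- the smallest elements -/
def dset (q : ℕ) : Finset (Fin 8) :=
  Finset.univ.filter fun x => (cm q x % 2 ^ (x : ℕ) == 0 && !(tq q x)) = true

omit hm in
theorem length_bits (p : ℕ → Bool) :
    (bits.filter p).length = (Finset.univ.filter fun x : Fin 8 => p x = true).card := by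
  have h1 : bits = List.range 8 := by decide
  have h2 : (Finset.univ.filter fun x : Fin 8 => p x = true).card =
      ((Finset.range 8).filter fun x => p x = true).card := by
    rw [← Finset.card_map Fin.valEmbedding]
    congr 1
    ext y
    simp only [Finset.mem_map, Finset.mem_filter, Finset.mem_univ, true_and,
      Fin.valEmbedding_apply, Finset.mem_range]
    constructor
    · rintro ⟨a, ha, rfl⟩
      exact ⟨a.2, ha⟩
    · rintro ⟨ha, hb⟩
      exact ⟨⟨y, ha⟩, hb, rfl⟩
  rw [h1, h2]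
  change _ = (List.filter (fun x => decide (p x = true)) (List.range 8)).length
  simp

omit hm in
theorem dl_length : (dl q).length = (dset q).card := length_bits _

theorem con8_symm (hP : ∀ x, P (P x) = x) {x z : Fin 8} (h : Con P bar8 x z) :
    Con P bar8 z x := h.symm' hP bar8_bar8

theorem dset_NC (hP : ∀ x, P (P x) = x) (hc : clo q = true) : NC P (dset q) := by
  have key : ∀ i j : Fin 8, j ∈ dset q → i < j → ¬ Con P bar8 j i := by
    intro i j hj hij h
    have h1 := clo_con hm hc h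
    unfold dset at hj
    rw [Finset.mem_filter, Bool.and_eq_true, beq_iff_eq] at hj
    have h2 : Nat.testBit (cm q j % 2 ^ (j : ℕ)) i = true := by
      rw [Nat.testBit_mod_two_pow, Bool.and_eq_true]
      exact ⟨by simpa using hij, h1⟩
    rw [hj.2.1] at h2
    simp at h2
  constructor
  · intro i hi j hj hij h
    rcases lt_or_gt_of_ne hij with h1 | h1
    · exact key i j hj h1 (con8_symm hm hP h)
    · exact key j i hi h1 h
  · intro i hi h
    unfold dset at hi
    rw [Finset.mem_filter, Bool.and_eq_true, TL_tq hm hc h] at hi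
    simp at hi

theorem cvq_CV (h : cvq q = true) : CV P (dset q) := by
  intro i
  unfold cvq at h
  rw [List.all_eq_true] at h
  have h1 := h i (mem_bits i.2)
  rw [Bool.or_eq_true, List.any_eq_true] at h1
  rcases h1 with h1 | ⟨y, hy, h1⟩
  · exact Or.inl (tq_TL hm h1)
  · right
    unfold dl at hy
    rw [List.mem_filter] at hy
    have hy8 := lt_of_bits hy.1
    refine ⟨⟨y, hy8⟩, ?_, cq_con hm h1⟩
    unfold dset
    rw [Finset.mem_filter]
    exact ⟨Finset.mem_univ _, hy.2⟩

end

/-- the alternative -/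
def Alt (P P' : Fin 8 → Fin 8) : Prop :=
  ∃ D D' : Finset (Fin 8), NC P D ∧ CV P' D' ∧
    (D'.card < D.card ∨ (D'.card ≤ D.card ∧ ¬ Con P' bar8 0 2 ∧
      (Con P bar8 2 0 ∨ Con P bar8 2 1) ∧ (Con P bar8 3 0 ∨ Con P bar8 3 1)))

theorem alt_sound {P P' : Fin 8 → Fin 8} {q q' : ℕ} (hm : Mat P q) (hm' : Mat P' q')
    (hP : ∀ x, P (P x) = x) (h : alt q q' = true) : Alt P P' := by
  unfold alt at h
  rw [Bool.and_eq_true, Bool.and_eq_true, Bool.and_eq_true] at h
  obtain ⟨⟨⟨h1, h2⟩, h3⟩, h4⟩ := h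
  refine ⟨dset q, dset q', dset_NC hm hP h2, cvq_CV hm' h4, ?_⟩
  rw [← dl_length, ← dl_length]
  rw [Bool.or_eq_true] at h1
  rcases h1 with h1 | h1
  · exact Or.inl (of_decide_eq_true h1)
  · right
    rw [Bool.and_eq_true, Bool.and_eq_true, Bool.and_eq_true, Bool.or_eq_true,
      Bool.or_eq_true] at h1
    obtain ⟨⟨⟨g1, g2⟩, g3⟩, g4⟩ := h1
    refine ⟨of_decide_eq_true g1, ?_, ?_, ?_⟩
    · intro h
      have h5 := clo_con hm' h3 h
      change cq q' 0 2 = true at h5
      rw [h5] at g2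
      simp at g2
    · rcases g3 with g | g
      · exact Or.inl (cq_con (x := 2) (z := 0) hm g)
      · exact Or.inr (cq_con (x := 2) (z := 1) hm g)
    · rcases g4 with g | g
      · exact Or.inl (cq_con (x := 3) (z := 0) hm g)
      · exact Or.inr (cq_con (x := 3) (z := 1) hm g)

theorem sgc_mat {P : Fin 8 → Fin 8} {q : ℕ} (hm : Mat P q) (u v : Fin 8) :
    Mat (sg8 u v P) (sgc u v q) := by
  intro x
  unfold sgc
  rw [app_pc _ x.2]
  · unfold sg8
    have e1 : (x : ℕ) = u ↔ x = u := Fin.ext_iff.symm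
    have e2 : (x : ℕ) = v ↔ x = v := Fin.ext_iff.symm
    have e3 : (x : ℕ) = app q u ↔ x = P u := by rw [← hm u]; exact Fin.ext_iff.symm
    have e4 : (x : ℕ) = app q v ↔ x = P v := by rw [← hm v]; exact Fin.ext_iff.symm
    have e5 : app q u = u ↔ P u = u := by rw [← hm u]; exact Fin.ext_iff.symm
    have e6 : app q v = v ↔ P v = v := by rw [← hm v]; exact Fin.ext_iff.symm
    simp only [e1, e2, e3, e4, e5, e6]
    split_ifs
    · rfl
    · rfl
    · rfl
    · exact hm v
    · rfl
    · exact hm u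
    · exact hm x
  · intro y
    have h1 := app_lt8 q u
    have h2 := app_lt8 q v
    have h3 := app_lt8 q y
    have h4 := u.2
    have h5 := v.2
    split_ifs <;> omega

/-- the surgery is allowed -/
def OK8 (u v : Fin 8) (P : Fin 8 → Fin 8) : Prop := P u ≠ v ∧ ¬ (P u = u ∧ P v = v)

theorem okc_sound {P : Fin 8 → Fin 8} {q : ℕ} (hm : Mat P q) {u v : Fin 8}
    (h : okc u v q = true) : OK8 u v P := by
  unfold okc at h
  rw [Bool.and_eq_true, Bool.not_eq_true', Bool.not_eq_true', beq_eq_false_iff_ne] at h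
  refine ⟨fun h' => h.1 (by rw [← hm u, h']), fun h' => ?_⟩
  have h1 : app q u = u := by rw [← hm u, h'.1]
  have h2 : app q v = v := by rw [← hm v, h'.2]
  rw [h1, h2] at h
  simp at h

/-- the five possibilities -/
def Fiv (P : Fin 8 → Fin 8) : Prop :=
  Alt P P ∨ (OK8 0 1 P ∧ Alt P (sg8 0 3 (sg8 0 1 P))) ∨
  (OK8 0 1 P ∧ Alt P (sg8 0 2 (sg8 0 1 P))) ∨
  (OK8 4 5 P ∧ Alt P (sg8 4 7 (sg8 4 5 P))) ∨
  (OK8 0 1 P ∧ OK8 4 5 (sg8 0 3 (sg8 0 1 P)) ∧
    Alt P (sg8 4 7 (sg8 4 5 (sg8 0 3 (sg8 0 1 P)))))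

theorem chkL_sound {P : Fin 8 → Fin 8} {q : ℕ} (hm : Mat P q) (hP : ∀ x, P (P x) = x)
    (h : chkL q = true) (h01 : ¬ Con P bar8 0 1) (hT : ¬ (TL P 0 ∧ TL P 1)) : Fiv P := by
  unfold chkL at h
  simp only [Bool.or_eq_true, Bool.and_eq_true] at h
  have m1 := sgc_mat hm 0 1
  have m2 := sgc_mat m1 0 3
  rcases h with (((((h | h) | h) | h) | h) | h) | h
  · exact absurd (cq_con (x := 0) (z := 1) hm h) h01
  · exact absurd ⟨tq_TL (x := 0) hm h.1, tq_TL (x := 1) hm h.2⟩ hT
  · exact Or.inl (alt_sound hm hm hP h)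
  · exact Or.inr (Or.inl ⟨okc_sound (u := 0) (v := 1) hm h.1, alt_sound hm m2 hP h.2⟩)
  · exact Or.inr (Or.inr (Or.inl ⟨okc_sound (u := 0) (v := 1) hm h.1,
      alt_sound hm (sgc_mat m1 0 2) hP h.2⟩))
  · exact Or.inr (Or.inr (Or.inr (Or.inl ⟨okc_sound (u := 4) (v := 5) hm h.1,
      alt_sound hm (sgc_mat (sgc_mat hm 4 5) 4 7) hP h.2⟩)))
  · exact Or.inr (Or.inr (Or.inr (Or.inr ⟨okc_sound (u := 0) (v := 1) hm h.1.1,
      okc_sound (u := 4) (v := 5) m2 h.1.2,
      alt_sound hm (sgc_mat (sgc_mat m2 4 5) 4 7) hP h.2⟩)))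

/-! ### All involutions -/

theorem goL_step {n k q a : ℕ} (h : goL (n + 1) k q = true) (ha : a < 8)
    (ho : okf q k a = true) : goL n (k + 1) (q + a * 8 ^ k) = true := by
  rw [goL, List.all_eq_true] at h
  have h1 := h a (mem_bits ha)
  rw [ho] at h1
  simpa using h1

theorem okf_pc {Q : Fin 8 → Fin 8} (hQ : ∀ x, Q (Q x) = x) {k : ℕ} (hk : k < 8) :
    okf (pc (ext8 Q) k) k (ext8 Q k) = true := by
  unfold okf
  rw [List.all_eq_true]
  intro j hj
  rw [List.mem_range] at hj
  rw [app_pc (ext8_lt Q) hj, beq_iff_eq]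
  have hj8 : j < 8 := by omega
  have h1 : ext8 Q j = k ↔ ext8 Q k = j := by
    unfold ext8
    rw [dif_pos hk, dif_pos hj8]
    constructor
    · intro h
      have h2 : Q ⟨j, hj8⟩ = ⟨k, hk⟩ := Fin.ext h
      rw [← h2, hQ]
    · intro h
      have h2 : Q ⟨k, hk⟩ = ⟨j, hj8⟩ := Fin.ext h
      rw [← h2, hQ]
  rw [Bool.eq_iff_iff, beq_iff_eq, beq_iff_eq]
  exact h1

theorem chkL_of_inv {Q : Fin 8 → Fin 8} (hQ : ∀ x, Q (Q x) = x) : chkL (code Q) = true := by
  have h0 : goL 8 0 (pc (ext8 Q) 0) = true := goL_all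
  have h1 : goL 7 1 (pc (ext8 Q) 1) = true := goL_step h0 (ext8_lt Q _) (okf_pc hQ (by norm_num))
  have h2 : goL 6 2 (pc (ext8 Q) 2) = true := goL_step h1 (ext8_lt Q _) (okf_pc hQ (by norm_num))
  have h3 : goL 5 3 (pc (ext8 Q) 3) = true := goL_step h2 (ext8_lt Q _) (okf_pc hQ (by norm_num))
  have h4 : goL 4 4 (pc (ext8 Q) 4) = true := goL_step h3 (ext8_lt Q _) (okf_pc hQ (by norm_num))
  have h5 : goL 3 5 (pc (ext8 Q) 5) = true := goL_step h4 (ext8_lt Q _) (okf_pc hQ (by norm_num))
  have h6 : goL 2 6 (pc (ext8 Q) 6) = true := goL_step h5 (ext8_lt Q _) (okf_pc hQ (by norm_num))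
  have h7 : goL 1 7 (pc (ext8 Q) 7) = true := goL_step h6 (ext8_lt Q _) (okf_pc hQ (by norm_num))
  exact goL_step h7 (ext8_lt Q _) (okf_pc hQ (by norm_num))

/-- THE LOCAL LEMMA: if the centre is not connected to the leaf `1` and they are not both
connected to terminals, one of five things (0, 1 or 2 P3's) reduces the number of cycles, or
keeps it and separates the centre from the leaf `2` -/
theorem local_five {P : Fin 8 → Fin 8} (hP : ∀ x, P (P x) = x) (h01 : ¬ Con P bar8 0 1)
    (hT : ¬ (TL P 0 ∧ TL P 1)) : Fiv P :=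
  chkL_sound (q := code P) (fun x => (app_code P x).symm) hP (chkL_of_inv hP) h01 hT

end Pool.Agent.Lib.MP_688fd0_co.SQ5.H69
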