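import Mathlib
import Pool.Agent.Lib.MP_688fd0_co.SQ5.H69.StarB
import Pool.Agent.Lib.MP_688fd0_co.SQ5.H69.StarC

/-!
MP_688fd0_co, type C: STAR FOR A WHOLE STRAND GRAPH. If `Λ` is a connected graph on the strands
and every strand has three neighbours, then the loopless stacks of at most `4 |S|^2` flat P3's
of `Λ` have the property `Star`: for every pairing `Q` of the ends outside and all ends `x`, `y`
in different arcs there is such a stack with every end connected to `x` or to `y`.
-/

namespace Pool.Agent.Lib.MP_688fd0_co.SQ5.H69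

open Function Equiv
open Pool.Agent.Lib.MP_688fd0_co.SQ5.H64

set_option linter.unusedSectionVars false

noncomputable section

variable {S : Type*}

/-- the ends and four terminals -/
abbrev E4 (S : Type*) := Fin 4 ⊕ (S × Bool)

/-- the strands -/
abbrev B4 (S : Type*) : E4 S → E4 S := jd (Fin 4) idd

theorem B4_inv (e : E4 S) : B4 S (B4 S e) = e := by
  rcases e with t | ⟨s, _ | _⟩ <;> rfl

theorem B4_fix {e : E4 S} (h : B4 S e = e) : ∃ t, e = Sum.inl t := by
  rcases e with t | ⟨s, b⟩
  · exact ⟨t, rfl⟩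
  · exfalso
    have h1 : (s, !b) = (s, b) := Sum.inr_injective h
    have h2 := congrArg Prod.snd h1
    simp at h2

/-! ### Four strands -/

/-- the eight ends of four strands -/
def L4 (v : Fin 4 → S) (i : Fin 8) : E4 S :=
  Sum.inr (v ⟨i.1 % 4, Nat.mod_lt _ (by norm_num)⟩, decide (4 ≤ i.1))

open Classical in
/-- the strands with the four strands cut -/
def J4 (v : Fin 4 → S) (e : E4 S) : E4 S := if ∃ i, e = L4 v i then e else B4 S e

theorem cut4 {v : Fin 4 → S} (hv : Injective v) : CutAt (B4 S) (J4 v) (L4 v) := by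
  refine ⟨B4_inv, ?_, ?_, ?_, ?_⟩
  · intro i j h
    have h1 := Sum.inr_injective h
    have h2 := hv (congrArg Prod.fst h1)
    have h3 : decide (4 ≤ i.1) = decide (4 ≤ j.1) := congrArg Prod.snd h1
    have h4 : i.1 % 4 = j.1 % 4 := congrArg Fin.val h2
    have h5 : 4 ≤ i.1 ↔ 4 ≤ j.1 := by simpa using h3
    apply Fin.ext
    omega
  · intro i
    have h1 : ∀ i : Fin 8, (bar8 i).1 % 4 = i.1 % 4 ∧ decide (4 ≤ (bar8 i).1) =
        !decide (4 ≤ i.1) := by decide
    have h2 := h1 i
    exact congrArg Sum.inr (Prod.ext (congrArg v (Fin.ext h2.1.symm)) h2.2.symm)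
  · intro i
    unfold J4
    rw [if_pos ⟨i, rfl⟩]
  · intro e he
    unfold J4
    rw [if_neg]
    rintro ⟨i, hi⟩
    exact he i hi

section Move

variable [Finite S] {v : Fin 4 → S} (hv : Injective v)
  {Q : E4 S → E4 S} (hQ : IsPair Q)

include hv hQ

/-- a P3 is two surgeries -/
theorem move_rel [DecidableEq (E4 S)] {u w1 w2 : Fin 8} (h1 : u ≠ w1) (h2 : u ≠ w2) (h3 : w1 ≠ w2)
    (hok : OK8 u w1 (P8 Q (J4 v) (L4 v))) :
    Rel (B4 S) (J4 v) (L4 v) Q (sg (L4 v u) (L4 v w2) (sg (L4 v u) (L4 v w1) Q)) ∧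
    P8 (sg (L4 v u) (L4 v w2) (sg (L4 v u) (L4 v w1) Q)) (J4 v) (L4 v) =
      sg8 u w2 (sg8 u w1 (P8 Q (J4 v) (L4 v))) ∧
    Q (L4 v u) ≠ L4 v w1 := by
  have hc := cut4 hv
  have e1 := p8_sg hQ hc h1 hok.1
  have r1 := Rel.of_sg hc hQ h1 hok.1 hok.2
  have e2 : P8 (sg (L4 v u) (L4 v w1) Q) (J4 v) (L4 v) u = w1 := by
    rw [e1]; unfold sg8; rw [if_pos rfl]
  have e3 := p8_sg r1.pair hc h2 (by rw [e2]; exact h3)
  have r2 := Rel.of_sg hc r1.pair h2 (by rw [e2]; exact h3)
    (by rw [e2]; exact fun h => h1 h.1.symm)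
  refine ⟨r1.trans' r2, by rw [e3, e1], ?_⟩
  intro h
  apply hok.1
  apply p8_eq hc.inj
  refine oth_eq hQ hc.Jinv (hc.fix u) (hc.fix w1) (fun h' => h1 (hc.inj h').symm) ?_
  rw [← h]; exact con_left _

/-- the star at `v 0` -/
theorem star_step [DecidableEq S] {Λ : SimpleGraph S} (hadj : ∀ i, i ≠ 0 → Λ.Adj (v 0) (v i))
    (h01 : ¬ Con Q (B4 S) (L4 v 0) (L4 v 1))
    (hT : ¬ (TC Q (B4 S) (L4 v 0) ∧ TC Q (B4 S) (L4 v 1))) :
    ∃ Q', Rel (B4 S) (J4 v) (L4 v) Q Q' ∧ (∀ n, Good Λ n Q' → Good Λ (n + 2) Q) ∧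
      Alt (P8 Q (J4 v) (L4 v)) (P8 Q' (J4 v) (L4 v)) := by
  have hc := cut4 hv
  have hmono : ∀ (n m : ℕ) (Q : E4 S → E4 S), n ≤ m → Good Λ n Q → Good Λ m Q := by
    rintro n m Q hnm ⟨k, hk, h⟩
    exact ⟨k, hk.trans hnm, h⟩
  have h01' : ¬ Con (P8 Q (J4 v) (L4 v)) bar8 0 1 := fun h => h01 (con_of_loc hQ hc h)
  have hTL : ∀ i, TL (P8 Q (J4 v) (L4 v)) i → TC Q (B4 S) (L4 v i) := by
    rintro i ⟨j, hj1, hj2⟩
    exact term_of_loc hQ hc hj1 hj2
  have hT' : ¬ (TL (P8 Q (J4 v) (L4 v)) 0 ∧ TL (P8 Q (J4 v) (L4 v)) 1) :=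
    fun h => hT ⟨hTL 0 h.1, hTL 1 h.2⟩
  -- Good is transported
  have good : ∀ (Q0 : E4 S → E4 S), IsPair Q0 → ∀ (b : Bool) (y z : Fin 4), y ≠ 0 → z ≠ 0 →
      y ≠ z → Q0 (Sum.inr (v 0, b)) ≠ Sum.inr (v y, b) → ∀ n,
      Good Λ n (newQ b (v 0) (v y) (v z) Q0) → Good Λ (n + 1) Q0 := by
    intro Q0 hQ0 b y z hy hz hyz h n hn
    exact Good.step hQ0 (hadj y hy) (hadj z hz) (fun h => hyz (hv h)) h hn
  rcases local_five (fun x => p8_inv hQ hc x) h01' hT' with h | h | h | h | h
  · exact ⟨Q, Rel.refl' hQ, fun n hn => hmono _ _ _ (by omega) hn, h⟩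
  · obtain ⟨r, e, n⟩ := move_rel hv hQ (u := 0) (w1 := 1) (w2 := 3) (by decide) (by decide)
      (by decide) h.1
    refine ⟨_, r, fun k hk => ?_, by rw [e]; exact h.2⟩
    exact hmono (k + 1) _ _ (by omega)
      (good Q hQ false 1 3 (by decide) (by decide) (by decide) n k hk)
  · obtain ⟨r, e, n⟩ := move_rel hv hQ (u := 0) (w1 := 1) (w2 := 2) (by decide) (by decide)
      (by decide) h.1
    refine ⟨_, r, fun k hk => ?_, by rw [e]; exact h.2⟩
    exact hmono (k + 1) _ _ (by omega)
      (good Q hQ false 1 2 (by decide) (by decide) (by decide) n k hk)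
  · obtain ⟨r, e, n⟩ := move_rel hv hQ (u := 4) (w1 := 5) (w2 := 7) (by decide) (by decide)
      (by decide) h.1
    refine ⟨_, r, fun k hk => ?_, by rw [e]; exact h.2⟩
    exact hmono (k + 1) _ _ (by omega)
      (good Q hQ true 1 3 (by decide) (by decide) (by decide) n k hk)
  · obtain ⟨r, e, n⟩ := move_rel hv hQ (u := 0) (w1 := 1) (w2 := 3) (by decide) (by decide)
      (by decide) h.1
    obtain ⟨r', e', n'⟩ := move_rel hv r.pair (u := 4) (w1 := 5) (w2 := 7) (by decide)
      (by decide) (by decide) (by rw [e]; exact h.2.1)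
    refine ⟨_, r.trans' r', fun k hk => ?_, by rw [e', e]; exact h.2.2⟩
    have h1 := good _ r.pair true 1 3 (by decide) (by decide) (by decide) n' k hk
    exact good Q hQ false 1 3 (by decide) (by decide) (by decide) n (k + 1) h1

end Move

/-! ### Terminals -/

section Terminals

variable [Finite S] {Q : E4 S → E4 S} (hQ : IsPair Q)

include hQ

theorem term_oth (t : Fin 4) : ∃ t' : Fin 4, oth Q (B4 S) (Sum.inl t) = Sum.inl t' :=
  B4_fix (J_oth hQ B4_inv rfl)

theorem con_symm {x y : E4 S} (h : Con Q (B4 S) x y) : Con Q (B4 S) y x :=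
  h.symm' hQ.1 B4_inv

theorem four_pairs : ∀ τ : Fin 4 → Fin 4, (∀ t, τ t ≠ t) → (∀ t, τ (τ t) = t) →
    ∀ a b c : Fin 4, a ≠ b → a ≠ c → b ≠ c → τ a = b ∨ τ a = c ∨ τ b = c := by
  decide +kernel

/-- at most two components contain terminals -/
theorem term_three {a b c : E4 S} (ha : TC Q (B4 S) a) (hb : TC Q (B4 S) b)
    (hc : TC Q (B4 S) c) :
    Con Q (B4 S) a b ∨ Con Q (B4 S) a c ∨ Con Q (B4 S) b c := by
  choose τ hτ using term_oth hQ
  have h1 : ∀ t, τ t ≠ t := by
    intro t h
    have h2 := oth_ne hQ B4_inv (x := Sum.inl t) rfl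
    rw [hτ, h] at h2
    exact h2 rfl
  have h2 : ∀ t, τ (τ t) = t := by
    intro t
    have h2 := oth_oth hQ B4_inv (x := Sum.inl t) rfl
    rw [hτ, hτ] at h2
    exact Sum.inl_injective h2
  have h3 : ∀ t, Con Q (B4 S) (Sum.inl t) (Sum.inl (τ t)) := by
    intro t
    have := con_oth (O := Q) (J := B4 S) (Sum.inl t)
    rwa [hτ] at this
  obtain ⟨_, hta, ha⟩ := ha
  obtain ⟨_, htb, hb⟩ := hb
  obtain ⟨_, htc, hc⟩ := hc
  obtain ⟨ta, rfl⟩ := B4_fix hta
  obtain ⟨tb, rfl⟩ := B4_fix htb
  obtain ⟨tc, rfl⟩ := B4_fix htc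
  have hb' := con_symm hQ hb
  have hc' := con_symm hQ hc
  by_cases hab : ta = tb
  · left; rw [hab] at ha; exact ha.trans' hb'
  by_cases hac : ta = tc
  · right; left; rw [hac] at ha; exact ha.trans' hc'
  by_cases hbc : tb = tc
  · right; right; rw [hbc] at hb; exact hb.trans' hc'
  rcases four_pairs hQ τ h1 h2 ta tb tc hab hac hbc with h | h | h
  · left; exact ha.trans' ((h ▸ h3 ta).trans' hb')
  · right; left; exact ha.trans' ((h ▸ h3 ta).trans' hc')
  · right; right; exact hb.trans' ((h ▸ h3 tb).trans' hc')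

/-- two components contain terminals -/
theorem term_two : ∃ t t' : Fin 4, ¬ Con Q (B4 S) (Sum.inl t) (Sum.inl t') := by
  obtain ⟨t1, h1⟩ := term_oth hQ 0
  have h2 : ∀ t1 : Fin 4, ∃ t' : Fin 4, t' ≠ 0 ∧ t' ≠ t1 := by decide
  obtain ⟨t', h3, h4⟩ := h2 t1
  refine ⟨0, t', fun h => ?_⟩
  rcases eq_or_oth hQ B4_inv rfl rfl h with h5 | h5
  · exact h3 (Sum.inl_injective h5)
  · rw [h1] at h5
    exact h4 (Sum.inl_injective h5)

end Terminals

/-! ### The walk -/

section Main

/-- lower end -/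
def le (s : S) : E4 S := Sum.inr (s, false)

/-- three strands in three components on a walk with `n` steps -/
def Three (Λ : SimpleGraph S) (Q : E4 S → E4 S) (n : ℕ) : Prop :=
  ∃ f : ℕ → S, (∀ i < n, Λ.Adj (f i) (f (i + 1))) ∧ ∃ i j k, i < j ∧ j < k ∧ k ≤ n ∧
    ¬ Con Q (B4 S) (le (f i)) (le (f j)) ∧ ¬ Con Q (B4 S) (le (f i)) (le (f k)) ∧
    ¬ Con Q (B4 S) (le (f j)) (le (f k))

variable [Finite S] {Λ : SimpleGraph S} {Q : E4 S → E4 S}

/-- a part of a walk -/
theorem three_part {f : ℕ → S} {n a i j k : ℕ} (hf : ∀ i < n, Λ.Adj (f i) (f (i + 1)))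
    (hai : a ≤ i) (hij : i < j) (hjk : j < k) (hkn : k ≤ n)
    (h1 : ¬ Con Q (B4 S) (le (f i)) (le (f j))) (h2 : ¬ Con Q (B4 S) (le (f i)) (le (f k)))
    (h3 : ¬ Con Q (B4 S) (le (f j)) (le (f k))) : Three Λ Q (k - a) := by
  refine ⟨fun m => f (m + a), ?_, i - a, j - a, k - a, by omega, by omega, le_rfl, ?_, ?_, ?_⟩
  · intro m hm
    have := hf (m + a) (by omega)
    rwa [show m + a + 1 = m + 1 + a by omega] at this
  · change ¬ Con Q (B4 S) (le (f (i - a + a))) (le (f (j - a + a)))
    rw [Nat.sub_add_cancel hai, Nat.sub_add_cancel (by omega)]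
    exact h1
  · change ¬ Con Q (B4 S) (le (f (i - a + a))) (le (f (k - a + a)))
    rw [Nat.sub_add_cancel hai, Nat.sub_add_cancel (by omega)]
    exact h2
  · change ¬ Con Q (B4 S) (le (f (j - a + a))) (le (f (k - a + a)))
    rw [Nat.sub_add_cancel (by omega), Nat.sub_add_cancel (by omega)]
    exact h3

/-- the structure of a shortest walk -/
theorem three_min (hQ : IsPair Q) {n : ℕ} (h : Three Λ Q n) (hmin : ∀ m < n, ¬ Three Λ Q m) :
    2 ≤ n ∧ ∃ f : ℕ → S, (∀ i < n, Λ.Adj (f i) (f (i + 1))) ∧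
      (∀ m, 0 < m → m < n → Con Q (B4 S) (le (f m)) (le (f 1))) ∧
      ¬ Con Q (B4 S) (le (f 0)) (le (f 1)) ∧ ¬ Con Q (B4 S) (le (f n)) (le (f 1)) ∧
      ¬ Con Q (B4 S) (le (f 0)) (le (f n)) := by
  obtain ⟨f, hf, i, j, k, hij, hjk, hkn, h1, h2, h3⟩ := h
  have hi : i = 0 := by
    by_contra hne
    exact hmin (k - i) (by omega) (three_part hf le_rfl hij hjk hkn h1 h2 h3)
  subst hi
  have hk : k = n := by
    by_contra hne
    have := three_part (a := 0) hf le_rfl hij hjk hkn h1 h2 h3
    exact hmin (k - 0) (by omega) this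
  subst hk
  have sym : ∀ {x y : E4 S}, Con Q (B4 S) x y → Con Q (B4 S) y x := fun h => con_symm hQ h
  have key : ∀ m, 0 < m → m < k → Con Q (B4 S) (le (f m)) (le (f j)) := by
    intro m hm0 hmk
    by_contra hne
    have hne' : ¬ Con Q (B4 S) (le (f j)) (le (f m)) := fun h => hne (sym h)
    rcases lt_trichotomy m j with hmj | hmj | hmj
    · have c1 : Con Q (B4 S) (le (f 0)) (le (f m)) := by
        by_contra h4
        exact hmin (j - 0) (by omega) (three_part (a := 0) hf le_rfl hm0 hmj (by omega) h4 h1 hne)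
      have c2 : Con Q (B4 S) (le (f m)) (le (f k)) := by
        by_contra h4
        exact hmin (k - m) (by omega) (three_part (a := m) hf le_rfl hmj hjk le_rfl hne h4 h3)
      exact h2 (c1.trans' c2)
    · subst hmj
      exact hne (Con.refl' _)
    · have c1 : Con Q (B4 S) (le (f 0)) (le (f m)) := by
        by_contra h4
        exact hmin (m - 0) (by omega)
          (three_part (a := 0) hf le_rfl hij hmj (by omega) h1 h4 hne')
      have c2 : Con Q (B4 S) (le (f m)) (le (f k)) := by
        by_contra h4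
        exact hmin (k - j) (by omega)
          (three_part (a := j) hf le_rfl hmj hmk le_rfl hne' h3 h4)
      exact h2 (c1.trans' c2)
  have k1 : Con Q (B4 S) (le (f 1)) (le (f j)) := key 1 (by omega) (by omega)
  refine ⟨by omega, f, hf, ?_, ?_, ?_, h2⟩
  · intro m hm0 hmk
    exact (key m hm0 hmk).trans' (sym k1)
  · intro h4
    exact h1 (h4.trans' k1)
  · intro h4
    exact h3 (sym (h4.trans' k1))

theorem third {a b c p q : S} (hab : a ≠ b) (hac : a ≠ c) (hbc : b ≠ c) :
    ∃ u, (u = a ∨ u = b ∨ u = c) ∧ u ≠ p ∧ u ≠ q := by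
  by_cases h1 : a = p ∨ a = q
  · by_cases h2 : b = p ∨ b = q
    · refine ⟨c, by simp, ?_, ?_⟩
      · rintro rfl
        rcases h1 with h1 | h1
        · exact hac h1
        · rcases h2 with h2 | h2
          · exact hbc h2
          · exact hab (h1.trans h2.symm)
      · rintro rfl
        rcases h1 with h1 | h1
        · rcases h2 with h2 | h2
          · exact hab (h1.trans h2.symm)
          · exact hbc h2
        · exact hac h1
    · push Not at h2
      exact ⟨b, by simp, h2.1, h2.2⟩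
  · push Not at h1
    exact ⟨a, by simp, h1.1, h1.2⟩

theorem Good.mono {n m : ℕ} [DecidableEq S] (hnm : n ≤ m) (h : Good Λ n Q) : Good Λ m Q := by
  obtain ⟨k, hk, h⟩ := h
  exact ⟨k, hk.trans hnm, h⟩

variable [DecidableEq S]
  (hdeg : ∀ s, ∃ a b c, a ≠ b ∧ a ≠ c ∧ b ≠ c ∧ Λ.Adj s a ∧ Λ.Adj s b ∧ Λ.Adj s c)

include hdeg

/-- one step: the number of cycles goes down or the walk becomes shorter -/
theorem walk_step (hQ : IsPair Q) (hact : Act Q (B4 S)) {c K n : ℕ}
    (hcov : ∃ R, Cov Q (B4 S) R ∧ R.card ≤ c + 1)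
    (IHc : ∀ Q' : E4 S → E4 S, IsPair Q' → Act Q' (B4 S) →
      (∃ R, Cov Q' (B4 S) R ∧ R.card ≤ c) → Good Λ K Q')
    (IHn : ∀ Q' : E4 S → E4 S, IsPair Q' → Act Q' (B4 S) →
      (∃ R, Cov Q' (B4 S) R ∧ R.card ≤ c + 1) → Three Λ Q' (n - 1) →
      Good Λ (K + 2 * (n - 1)) Q')
    (hn : 2 ≤ n) {f : ℕ → S} (hf : ∀ i < n, Λ.Adj (f i) (f (i + 1)))
    (hA : ∀ m, 0 < m → m < n → Con Q (B4 S) (le (f m)) (le (f 1)))
    (hB : ¬ Con Q (B4 S) (le (f 0)) (le (f 1))) (hC : ¬ Con Q (B4 S) (le (f n)) (le (f 1)))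
    (hD : ¬ Con Q (B4 S) (le (f 0)) (le (f n)))
    (hT : ¬ (TC Q (B4 S) (le (f 1)) ∧ TC Q (B4 S) (le (f 0)))) : Good Λ (K + 2 * n) Q := by
  have sym : ∀ {x y : E4 S}, Con Q (B4 S) x y → Con Q (B4 S) y x := fun h => con_symm hQ h
  obtain ⟨a, b, d, hab, had, hbd, ha, hb, hd⟩ := hdeg (f 1)
  obtain ⟨u, hu, hu0, hu2⟩ := third (p := f 0) (q := f 2) hab had hbd
  have hadu : Λ.Adj (f 1) u := by
    rcases hu with h | h | h
    · rw [h]; exact ha
    · rw [h]; exact hb
    · rw [h]; exact hd
  have had0 : Λ.Adj (f 1) (f 0) := (hf 0 (by omega)).symm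
  have had2 : Λ.Adj (f 1) (f 2) := hf 1 (by omega)
  have hne02 : f 0 ≠ f 2 := by
    intro h
    by_cases h2 : n = 2
    · subst h2
      apply hD; rw [h]; exact Con.refl' _
    · apply hB
      rw [h]
      exact hA 2 (by omega) (by omega)
  set v : Fin 4 → S := ![f 1, f 0, f 2, u] with hv
  have hvinj : Injective v := by
    intro i j h
    fin_cases i <;> fin_cases j <;> first
      | rfl
      | (exfalso; revert h; change _ ≠ _)
    · exact had0.ne
    · exact had2.ne
    · exact hadu.ne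
    · exact had0.ne.symm
    · exact hne02
    · exact hu0.symm
    · exact had2.ne.symm
    · exact hne02.symm
    · exact hu2.symm
    · exact hadu.ne.symm
    · exact hu0
    · exact hu2
  have hadj : ∀ i, i ≠ 0 → Λ.Adj (v 0) (v i) := by
    intro i hi
    fin_cases i
    · exact absurd rfl hi
    · exact had0
    · exact had2
    · exact hadu
  have hc := cut4 hvinj
  have l0 : L4 v 0 = le (f 1) := rfl
  have l1 : L4 v 1 = le (f 0) := rfl
  have l2 : L4 v 2 = le (f 2) := rfl
  obtain ⟨Q', hrel, hgood, D, D', hNC, hCV, hcase⟩ := star_step hvinj hQ hadj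
    (by rw [l0, l1]; exact fun h => hB (sym h)) (by rw [l0, l1]; exact hT)
  obtain ⟨R, hR, hRc⟩ := hcov
  obtain ⟨R', hR', hRc'⟩ := cover_step hc hQ hrel hR hNC hCV
  rcases hcase with h | ⟨h1, h2, h3, h4⟩
  · have h5 := hgood _ (IHc Q' hrel.pair (hrel.act hact) ⟨R', hR', by omega⟩)
    exact h5.mono (by omega)
  · -- the centre is separated from the next vertex
    have g3 : Con Q (B4 S) (L4 v 2) (L4 v 0) ∨ Con Q (B4 S) (L4 v 2) (L4 v 1) := by
      rcases h3 with h | h
      · exact Or.inl (con_of_loc hQ hc h)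
      · exact Or.inr (con_of_loc hQ hc h)
    have g4 : Con Q (B4 S) (L4 v 3) (L4 v 0) ∨ Con Q (B4 S) (L4 v 3) (L4 v 1) := by
      rcases h4 with h | h
      · exact Or.inl (con_of_loc hQ hc h)
      · exact Or.inr (con_of_loc hQ hc h)
    have hn3 : 3 ≤ n := by
      by_contra hlt
      have h5 : n = 2 := by omega
      subst h5
      rw [l0, l1, l2] at g3
      rcases g3 with h | h
      · exact hC h
      · exact hD (sym h)
    have c2 : Con Q (B4 S) (le (f 2)) (le (f 1)) := hA 2 (by omega) (by omega)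
    -- all eight ends are connected to `f 1` or `f 0`
    have hlow : ∀ i : Fin 8, i.1 < 4 → Con Q (B4 S) (L4 v i) (L4 v 0) ∨
        Con Q (B4 S) (L4 v i) (L4 v 1) := by
      intro i hi
      have hi' : i = 0 ∨ i = 1 ∨ i = 2 ∨ i = 3 := by
        revert hi; revert i; decide
      rcases hi' with rfl | rfl | rfl | rfl
      · exact Or.inl (Con.refl' _)
      · exact Or.inr (Con.refl' _)
      · exact g3
      · exact g4
    have hall : ∀ i : Fin 8, Con Q (B4 S) (L4 v i) (L4 v 0) ∨
        Con Q (B4 S) (L4 v i) (L4 v 1) := by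
      intro i
      have hi' : i.1 < 4 ∨ (bar8 i).1 < 4 := by
        revert i; decide
      rcases hi' with h | h
      · exact hlow i h
      · have h5 : Con Q (B4 S) (L4 v i) (L4 v (bar8 i)) := by
          rw [← hc.bar]; exact con_right _
        rcases hlow _ h with h6 | h6
        · exact Or.inl (h5.trans' h6)
        · exact Or.inr (h5.trans' h6)
    have hunt : ∀ i, ¬ Con Q (B4 S) (le (f n)) (L4 v i) := by
      intro i h
      rcases hall i with h5 | h5
      · exact hC (h.trans' h5)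
      · exact hD (sym (h.trans' h5))
    have e1 := hrel.unt _ hunt
    have sym' : ∀ {x y : E4 S}, Con Q' (B4 S) x y → Con Q' (B4 S) y x :=
      fun h => con_symm hrel.pair h
    have d1 : ¬ Con Q' (B4 S) (le (f 1)) (le (f 2)) := by
      intro h
      exact h2 (loc_con hrel.pair hc (i := 0) (k := 2) h)
    have d2 : ¬ Con Q' (B4 S) (le (f 1)) (le (f n)) := by
      intro h
      exact hC ((e1 _).1 (sym' h))
    have d3 : ¬ Con Q' (B4 S) (le (f 2)) (le (f n)) := by
      intro h
      exact hC (((e1 _).1 (sym' h)).trans' c2)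
    have h3' : Three Λ Q' (n - 1) :=
      three_part (a := 1) (i := 1) (j := 2) (k := n) hf le_rfl (by omega) (by omega) le_rfl
        d1 d2 d3
    have h5 := hgood _ (IHn Q' hrel.pair (hrel.act hact) ⟨R', hR', by omega⟩ h3')
    exact h5.mono (by omega)

omit hdeg in
/-- a short walk through three given strands -/
theorem exists_walk (hconn : Λ.Connected) {a b c : S} (hab : a ≠ b) (hbc : b ≠ c)
    (h1 : ¬ Con Q (B4 S) (le a) (le b)) (h2 : ¬ Con Q (B4 S) (le a) (le c))
    (h3 : ¬ Con Q (B4 S) (le b) (le c)) : ∃ n ≤ 2 * Nat.card S, Three Λ Q n := by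
  have hF := Fintype.ofFinite S
  set p : Λ.Path a b := (hconn.preconnected a b).some.toPath with hp
  set q : Λ.Path b c := (hconn.preconnected b c).some.toPath with hq
  have hp1 : p.1.length < Fintype.card S := p.2.length_lt
  have hq1 : q.1.length < Fintype.card S := q.2.length_lt
  have hcard : Nat.card S = Fintype.card S := Nat.card_eq_fintype_card
  have hp0 : 0 < p.1.length := by
    rcases Nat.eq_zero_or_pos p.1.length with h | h
    · exact absurd (SimpleGraph.Walk.eq_of_length_eq_zero h) hab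
    · exact h
  have hq0 : 0 < q.1.length := by
    rcases Nat.eq_zero_or_pos q.1.length with h | h
    · exact absurd (SimpleGraph.Walk.eq_of_length_eq_zero h) hbc
    · exact h
  have hlen : (p.1.append q.1).length = p.1.length + q.1.length :=
    SimpleGraph.Walk.length_append _ _
  have e0 : (p.1.append q.1).getVert 0 = a := SimpleGraph.Walk.getVert_zero _
  have e1 : (p.1.append q.1).getVert p.1.length = b := by
    rw [SimpleGraph.Walk.getVert_append, if_neg (lt_irrefl _), Nat.sub_self]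
    exact SimpleGraph.Walk.getVert_zero _
  have e2 : (p.1.append q.1).getVert (p.1.length + q.1.length) = c := by
    rw [← hlen]; exact SimpleGraph.Walk.getVert_length _
  refine ⟨p.1.length + q.1.length, by omega, fun i => (p.1.append q.1).getVert i, ?_,
    0, p.1.length, p.1.length + q.1.length, hp0, by omega, le_rfl, ?_, ?_, ?_⟩
  · intro i hi
    exact SimpleGraph.Walk.adj_getVert_succ _ (by rw [hlen]; exact hi)
  · change ¬ Con Q (B4 S) (le ((p.1.append q.1).getVert 0)) (le ((p.1.append q.1).getVert _))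
    rw [e0, e1]; exact h1
  · change ¬ Con Q (B4 S) (le ((p.1.append q.1).getVert 0)) (le ((p.1.append q.1).getVert _))
    rw [e0, e2]; exact h2
  · change ¬ Con Q (B4 S) (le ((p.1.append q.1).getVert _)) (le ((p.1.append q.1).getVert _))
    rw [e1, e2]; exact h3

omit hdeg in
theorem le_con (q : S × Bool) : Con Q (B4 S) (le q.1) (Sum.inr q) := by
  rcases q with ⟨s, _ | _⟩
  · exact Con.refl' _
  · exact con_right (f := Q) (g := B4 S) (Sum.inr (s, false))

omit hdeg in
/-- as long as there is a cycle there is a walk which meets three components -/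
theorem exists_three (hconn : Λ.Connected) (hQ : IsPair Q) (hact : Act Q (B4 S))
    {R : Finset (E4 S)} (h : ∃ r ∈ R, ¬ TC Q (B4 S) r) :
    ∃ n ≤ 2 * Nat.card S, Three Λ Q n := by
  have sym : ∀ {x y : E4 S}, Con Q (B4 S) x y → Con Q (B4 S) y x := fun h => con_symm hQ h
  obtain ⟨r, -, hr⟩ := h
  rcases r with t | q0
  · exact absurd ⟨Sum.inl t, rfl, Con.refl' _⟩ hr
  obtain ⟨t1, t2, ht⟩ := term_two hQ
  have hstr : ∀ t : Fin 4, ∃ s : S, Con Q (B4 S) (le s) (Sum.inl t) := by
    intro t
    have h1 := hact (Sum.inl t) rfl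
    rcases h2 : Q (Sum.inl t) with t' | q
    · rw [h2] at h1; exact absurd rfl h1
    · refine ⟨q.1, (le_con q).trans' ?_⟩
      have h3 := con_left (f := Q) (g := B4 S) (Sum.inl t)
      rw [h2] at h3
      exact sym h3
  obtain ⟨s1, hs1⟩ := hstr t1
  obtain ⟨s2, hs2⟩ := hstr t2
  have hs0 : ¬ TC Q (B4 S) (le q0.1) := by
    rintro ⟨t, ht, h⟩
    exact hr ⟨t, ht, (sym (le_con q0)).trans' h⟩
  have n1 : ¬ Con Q (B4 S) (le s1) (le q0.1) := fun h =>
    hs0 ⟨Sum.inl t1, rfl, (sym h).trans' hs1⟩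
  have n2 : ¬ Con Q (B4 S) (le q0.1) (le s2) := fun h => hs0 ⟨Sum.inl t2, rfl, h.trans' hs2⟩
  have n3 : ¬ Con Q (B4 S) (le s1) (le s2) := fun h =>
    ht ((sym hs1).trans' (h.trans' hs2))
  refine exists_walk hconn (a := s1) (b := q0.1) (c := s2) ?_ ?_ n1 n3 n2
  · intro h; apply n1; rw [h]; exact Con.refl' _
  · intro h; apply n2; rw [h]; exact Con.refl' _

theorem main_good (hconn : Λ.Connected) : ∀ (c : ℕ) (Q : E4 S → E4 S), IsPair Q →
    Act Q (B4 S) → (∃ R, Cov Q (B4 S) R ∧ R.card ≤ c) → Good Λ (c * (4 * Nat.card S)) Q := by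
  intro c
  induction c with
  | zero =>
    rintro Q hQ hact ⟨R, hR, hc⟩
    refine ⟨0, by omega, idd, Stk.nil, ?_⟩
    intro e
    have h0 : R = ∅ := Finset.card_eq_zero.1 (by omega)
    rcases hR e with ⟨r, hr, -⟩ | ⟨t, ht, h⟩
    · rw [h0] at hr; exact absurd hr (Finset.notMem_empty _)
    · obtain ⟨t', rfl⟩ := B4_fix ht
      exact ⟨t', h⟩
  | succ c IHc =>
    intro Q0 hQ0 hact0 hcov0
    -- the walk
    have walk : ∀ (n : ℕ) (Q : E4 S → E4 S), IsPair Q → Act Q (B4 S) →
        (∃ R, Cov Q (B4 S) R ∧ R.card ≤ c + 1) → Three Λ Q n →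
        Good Λ (c * (4 * Nat.card S) + 2 * n) Q := by
      intro n
      induction n using Nat.strong_induction_on with
      | _ n IHn =>
        intro Q hQ hact hcov h3
        by_cases hm : ∃ m < n, Three Λ Q m
        · obtain ⟨m, hmn, hm⟩ := hm
          exact (IHn m hmn Q hQ hact hcov hm).mono (by omega)
        · push Not at hm
          obtain ⟨hn, f, hf, hA, hB, hC, hD⟩ := three_min hQ h3 hm
          have sym : ∀ {x y : E4 S}, Con Q (B4 S) x y → Con Q (B4 S) y x :=
            fun h => con_symm hQ h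
          by_cases hT : TC Q (B4 S) (le (f 1)) ∧ TC Q (B4 S) (le (f 0))
          · -- reverse the walk
            have hnn : Con Q (B4 S) (le (f (n - 1))) (le (f 1)) := hA _ (by omega) (by omega)
            refine walk_step hdeg hQ hact hcov IHc
              (fun Q' h1 h2 h3 h4 => IHn (n - 1) (by omega) Q' h1 h2 h3 h4) hn
              (f := fun m => f (n - m)) ?_ ?_ ?_ ?_ ?_ ?_
            · intro i hi
              have h1 := (hf (n - (i + 1)) (by omega)).symm
              rwa [show n - (i + 1) + 1 = n - i by omega] at h1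
            · intro m hm0 hmn
              exact (hA (n - m) (by omega) (by omega)).trans' (sym hnn)
            · intro h
              exact hC (h.trans' hnn)
            · intro h
              have h' : Con Q (B4 S) (le (f 0)) (le (f (n - 1))) := by
                have h1 : Con Q (B4 S) (le (f (n - n))) (le (f (n - 1))) := h
                rwa [Nat.sub_self] at h1
              exact hB (h'.trans' hnn)
            · intro h
              have h' : Con Q (B4 S) (le (f n)) (le (f 0)) := by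
                have h1 : Con Q (B4 S) (le (f (n - 0))) (le (f (n - n))) := h
                rwa [Nat.sub_self, Nat.sub_zero] at h1
              exact hD (sym h')
            · rintro ⟨-, h2⟩
              have h2' : TC Q (B4 S) (le (f n)) := h2
              rcases term_three hQ hT.1 hT.2 h2' with h | h | h
              · exact hB (sym h)
              · exact hC (sym h)
              · exact hD h
          · exact walk_step hdeg hQ hact hcov IHc
              (fun Q' h1 h2 h3 h4 => IHn (n - 1) (by omega) Q' h1 h2 h3 h4) hn hf hA hB hC hD hT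
    obtain ⟨R, hR, hRc⟩ := hcov0
    by_cases h : ∃ r ∈ R, ¬ TC Q0 (B4 S) r
    · obtain ⟨n, hn, h3⟩ := exists_three hconn hQ0 hact0 h
      have h4 := walk n Q0 hQ0 hact0 ⟨R, hR, hRc⟩ h3
      refine h4.mono ?_
      have : (c + 1) * (4 * Nat.card S) = c * (4 * Nat.card S) + 4 * Nat.card S := by ring
      omega
    · push Not at h
      have h0 : Cov Q0 (B4 S) ∅ := by
        intro e
        right
        rcases hR e with ⟨r, hr, her⟩ | h1
        · obtain ⟨t, ht, hrt⟩ := h r hr
          exact ⟨t, ht, her.trans' hrt⟩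
        · exact h1
      refine (IHc Q0 hQ0 hact0 ⟨∅, h0, by simp⟩).mono ?_
      exact Nat.mul_le_mul_right _ (Nat.le_succ c)

end Main

/-! ### The theorem -/

section Final

variable [Finite S] [DecidableEq S]

/-- the outside with the arcs of `x` and `y` opened -/
def opn (Q : S × Bool → S × Bool) (x y : S × Bool) : E4 S → E4 S
  | Sum.inl t => Sum.inr (![x, Q x, y, Q y] t)
  | Sum.inr q => if q = x then Sum.inl 0 else if q = Q x then Sum.inl 1
      else if q = y then Sum.inl 2 else if q = Q y then Sum.inl 3 else Sum.inr (Q q)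

variable {Q : S × Bool → S × Bool} {x y : S × Bool}

theorem opn_pair (hQ : IsPair Q) (hxy : y ≠ x) (hxy' : y ≠ Q x) : IsPair (opn Q x y) := by
  have h1 : Q x ≠ x := hQ.2 x
  have h2 : Q y ≠ y := hQ.2 y
  have h3 : Q y ≠ x := fun h => hxy' (by rw [← h, hQ.1])
  have h4 : Q y ≠ Q x := fun h => hxy (pair_inj hQ h)
  have h5 : y ≠ Q x := hxy'
  constructor
  · rintro (t | q)
    · fin_cases t
      · change opn Q x y (Sum.inr x) = _
        simp [opn]
      · change opn Q x y (Sum.inr (Q x)) = _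
        simp [opn, h1]
      · change opn Q x y (Sum.inr y) = _
        simp [opn, hxy, hxy']
      · change opn Q x y (Sum.inr (Q y)) = _
        simp [opn, h2, h3, h4]
    · by_cases c1 : q = x
      · subst c1; simp [opn]
      by_cases c2 : q = Q x
      · subst c2; simp [opn, h1]
      by_cases c3 : q = y
      · subst c3; simp [opn, hxy, hxy']
      by_cases c4 : q = Q y
      · subst c4; simp [opn, h2, h3, h4]
      have e1 : opn Q x y (Sum.inr q) = Sum.inr (Q q) := by simp [opn, c1, c2, c3, c4]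
      have d1 : Q q ≠ x := fun h => c2 (by rw [← h, hQ.1])
      have d2 : Q q ≠ Q x := fun h => c1 (pair_inj hQ h)
      have d3 : Q q ≠ y := fun h => c4 (by rw [← h, hQ.1])
      have d4 : Q q ≠ Q y := fun h => c3 (pair_inj hQ h)
      rw [e1]
      simp [opn, d1, d2, d3, d4, hQ.1]
  · rintro (t | q)
    · simp [opn]
    · have hq := hQ.2 q
      simp only [opn]
      split_ifs <;> simp [hq]

/-- STAR for a whole strand graph: `Λ` connected, every strand has three neighbours -/
theorem starG {Λ : SimpleGraph S} (hconn : Λ.Connected)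
    (hdeg : ∀ s, ∃ a b c, a ≠ b ∧ a ≠ c ∧ b ≠ c ∧ Λ.Adj s a ∧ Λ.Adj s b ∧ Λ.Adj s c) :
    H64.Star {d : S × Bool → S × Bool | ∃ n ≤ 4 * Nat.card S ^ 2, Stk Λ n d} := by
  intro Q hQ x y hxy hxy'
  have hF := Fintype.ofFinite S
  have hO := opn_pair hQ hxy hxy'
  have hact : Act (opn Q x y) (B4 S) := by
    intro t ht
    obtain ⟨t', rfl⟩ := B4_fix ht
    intro h
    have h1 : opn Q x y (Sum.inl t') = Sum.inr (![x, Q x, y, Q y] t') := rfl
    rw [h1] at h
    obtain ⟨t'', h2⟩ := B4_fix h
    cases h2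
  have hcov : Cov (opn Q x y) (B4 S) (Finset.univ.image fun s : S => le s) := by
    rintro (t | q)
    · exact Or.inr ⟨Sum.inl t, rfl, Con.refl' _⟩
    · exact Or.inl ⟨le q.1, Finset.mem_image_of_mem _ (Finset.mem_univ _),
        con_symm hO (le_con q)⟩
  obtain ⟨m, hm, d, hd, hall⟩ := main_good hdeg hconn (Nat.card S) (opn Q x y) hO hact
    ⟨_, hcov, by rw [Nat.card_eq_fintype_card]; exact Finset.card_image_le⟩
  refine ⟨d, ⟨m, hm.trans (le_of_eq (by ring)), hd⟩, ?_⟩
  have hdp := hd.pair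
  -- back to the closed picture
  let χ : E4 S → S × Bool := fun e => match e with
    | Sum.inl t => ![x, Q x, y, Q y] t
    | Sum.inr q => q
  have hstep : ∀ e e' : E4 S, Con (opn Q x y) (jd (Fin 4) d) e e' → Con Q d (χ e) (χ e') := by
    intro e e' h
    induction h with
    | refl => exact Con.refl' _
    | tail _ hs ih =>
      rename_i b c _
      refine ih.trans' ?_
      rcases hs with hs | hs
      · rw [hs]
        rcases b with t | q
        · exact Con.refl' _
        · by_cases c1 : q = x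
          · subst c1
            have : opn Q q y (Sum.inr q) = Sum.inl 0 := by simp [opn]
            rw [this]; exact Con.refl' _
          by_cases c2 : q = Q x
          · have : opn Q x y (Sum.inr q) = Sum.inl 1 := by simp [opn, c2, hQ.2]
            rw [this, c2]; exact Con.refl' _
          by_cases c3 : q = y
          · have : opn Q x y (Sum.inr q) = Sum.inl 2 := by
              rw [c3]; simp [opn, hxy, hxy']
            rw [this, c3]; exact Con.refl' _
          by_cases c4 : q = Q y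
          · have h3 : Q y ≠ x := fun h => hxy' (by rw [← h, hQ.1])
            have h4 : Q y ≠ Q x := fun h => hxy (pair_inj hQ h)
            have : opn Q x y (Sum.inr q) = Sum.inl 3 := by
              rw [c4]; simp [opn, h3, h4, hQ.2]
            rw [this, c4]; exact Con.refl' _
          have e1 : opn Q x y (Sum.inr q) = Sum.inr (Q q) := by simp [opn, c1, c2, c3, c4]
          rw [e1]
          exact con_left _
      · rw [hs]
        rcases b with t | q
        · exact Con.refl' _
        · exact con_right _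
  intro z
  obtain ⟨t, ht⟩ := hall (Sum.inr z)
  have h1 : Con Q d z (![x, Q x, y, Q y] t) := hstep _ _ ht
  have h2 : Con Q d (![x, Q x, y, Q y] t) z := h1.symm' hQ.1 hdp.1
  fin_cases t
  · exact Or.inl h2
  · exact Or.inl ((con_left x).trans' h2)
  · exact Or.inr h2
  · exact Or.inr ((con_left y).trans' h2)

end Final

end

end Pool.Agent.Lib.MP_688fd0_co.SQ5.H69
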