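import Pool.Agent.Lib.MP_688fd0_co.NC.PathN

/-!
PEEL: `A` has a listing sequence if `A'` has one for `H = ⟨A'⟩` and the cosets of `H` are the `g ^ i H`, where `g` is the end
of the sequence times a letter `b`. Corollary: all letters are involutions and reflections, the rotations commute.
-/

set_option autoImplicit false

namespace Pool.Agent.Lib.MP_688fd0_co.SQ5

open Pool.Agent.Lib.MP_688fd0_co.OSF Pool.Agent.Lib.MP_688fd0_co.NC

universe u

variable {G : Type u} [Group G] {A : Set G} {H : Subgroup G} {E : ℕ} {v : ℕ → G}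

theorem im_coset (S : Seq A H E v) (x : G) : im v x (Set.Icc 0 E) = {y : G | x⁻¹ * y ∈ H} := by
  ext y
  constructor
  · rintro ⟨k, hk, rfl⟩
    show x⁻¹ * (x * v k) ∈ H
    rw [inv_mul_cancel_left]
    exact S.mem k hk.2
  · intro h
    obtain ⟨k, hk, h2⟩ := S.sur _ h
    exact ⟨k, ⟨Nat.zero_le _, hk⟩, by simp [h2]⟩

theorem chain (S : Seq A H E v) {g : G} (hb : (v E)⁻¹ * g ∈ A) (x : G) (l : ℕ)
    (hd : ∀ i, 0 < i → i ≤ l → g ^ i ∉ H) :
    Pt A {y : G | ∃ i ≤ l, (x * g ^ i)⁻¹ * y ∈ H} x (x * g ^ l * v E) := by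
  induction l with
  | zero =>
    have h := seg_up S x 0 E (Nat.zero_le _) le_rfl
    rw [S.zero, mul_one, im_coset S] at h
    rw [pow_zero, mul_one]
    refine h.congr ?_
    ext y
    constructor
    · exact fun h => ⟨0, le_rfl, by simpa using h⟩
    · rintro ⟨i, hi, h⟩
      obtain rfl : i = 0 := by omega
      simpa using h
  | succ l ih =>
    have h := seg_up S (x * g ^ (l + 1)) 0 E (Nat.zero_le _) le_rfl
    rw [S.zero, mul_one, im_coset S] at h
    refine ((ih fun i h1 h2 => hd i h1 (by omega)).append h ?_ ?_).congr ?_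
    · rw [Set.disjoint_left]
      rintro y ⟨i, hi, h1⟩ h2
      have h3 : (x * g ^ i)⁻¹ * y * ((x * g ^ (l + 1))⁻¹ * y)⁻¹ ∈ H := H.mul_mem h1 (H.inv_mem h2)
      have h4 : (x * g ^ i)⁻¹ * y * ((x * g ^ (l + 1))⁻¹ * y)⁻¹ = g ^ (l + 1 - i) := by
        have h5 : g ^ (l + 1) = g ^ i * g ^ (l + 1 - i) := by rw [← pow_add]; congr 1; omega
        rw [h5]
        group
      rw [h4] at h3
      exact hd _ (by omega) (by omega) h3
    · have h6 : (x * g ^ l * v E)⁻¹ * (x * g ^ (l + 1)) = (v E)⁻¹ * g := by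
        rw [pow_succ]; group
      rw [h6]
      exact hb
    · ext y
      constructor
      · rintro (⟨i, hi, h1⟩ | h1)
        · exact ⟨i, by omega, h1⟩
        · exact ⟨l + 1, le_rfl, h1⟩
      · rintro ⟨i, hi, h1⟩
        rcases Nat.lt_or_ge i (l + 1) with h2 | h2
        · exact Or.inl ⟨i, by omega, h1⟩
        · obtain rfl : i = l + 1 := by omega
          exact Or.inr h1

/-- PEEL. -/
theorem peel [Finite G] (S : Seq A H E v) {g : G} (hb : (v E)⁻¹ * g ∈ A) (hc : ∀ y : G, ∃ i : ℕ, (g ^ i)⁻¹ * y ∈ H) :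
    Lst A := by
  classical
  have hex : ∃ d, 0 < d ∧ g ^ d ∈ H := ⟨orderOf g, orderOf_pos g, by rw [pow_orderOf_eq_one]; exact H.one_mem⟩
  set d := Nat.find hex with hd
  obtain ⟨hd0, hdH⟩ := Nat.find_spec hex
  rw [← hd] at hd0 hdH
  have hmin : ∀ i, 0 < i → i ≤ d - 1 → g ^ i ∉ H := fun i h1 h2 h3 => by
    have := Nat.find_min hex (m := i) (by omega)
    exact this ⟨h1, h3⟩
  have h := chain S hb 1 (d - 1) hmin
  refine (h.congr ?_).lst ⟨_, hb⟩
  ext y
  simp only [Set.mem_ofPred_eq, Set.mem_univ, iff_true, one_mul]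
  obtain ⟨i, hi⟩ := hc y
  refine ⟨i % d, by have := Nat.mod_lt i hd0; omega, ?_⟩
  have h1 : g ^ i = g ^ (i % d) * (g ^ d) ^ (i / d) := by
    rw [← pow_mul, ← pow_add, Nat.mod_add_div]
  rw [h1, mul_inv_rev, mul_assoc] at hi
  have h2 := H.mul_mem (H.pow_mem hdH (i / d)) hi
  rwa [mul_inv_cancel_left] at h2

theorem eps_seq {eps : G →* ℤˣ} (hA : ∀ a ∈ A, eps a = -1) (S : Seq A H E v) : ∀ i ≤ E, eps (v i) = (-1) ^ i := by
  intro i
  induction i with
  | zero => intro _; rw [S.zero, map_one, pow_zero]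
  | succ i ih =>
    intro hi
    have h1 := hA _ (S.edge i (by omega))
    rw [map_mul, map_inv, ih (by omega)] at h1
    rw [pow_succ]
    exact eq_mul_of_inv_mul_eq h1

/-- The sequence ends outside the kernel. -/
theorem eps_end [Finite G] {eps : G →* ℤˣ} (hA : ∀ a ∈ A, eps a = -1) (S : Seq A H E v) (hE : E + 1 = Nat.card H)
    {c : G} (hc : c ∈ H) (hec : eps c = -1) : eps (v E) = -1 := by
  have h2 : 2 ∣ Nat.card H := by
    have h3 : Function.Surjective (eps.comp H.subtype) := by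
      intro e
      rcases Int.units_eq_one_or e with rfl | rfl
      · exact ⟨1, map_one _⟩
      · exact ⟨⟨c, hc⟩, hec⟩
    have h4 := Subgroup.card_dvd_of_surjective _ h3
    have h5 : Nat.card ℤˣ = 2 := by rw [Nat.card_eq_fintype_card]; rfl
    rwa [h5] at h4
  rw [eps_seq hA S E le_rfl]
  obtain ⟨m, hm⟩ := h2
  have h6 : Odd E := ⟨m - 1, by omega⟩
  exact h6.neg_one_pow

/-- PEEL for reflections: the rotations of `H` form a normal subgroup of the rotations, with a cyclic quotient generated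
by `c⁻¹ b`. -/
theorem peel_refl [Finite G] {A' : Set G} {eps : G →* ℤˣ} (hA : ∀ a ∈ A, eps a = -1) (hA' : A' ⊆ A)
    (hl : Lst {x : Subgroup.closure A' | (x : G) ∈ A'}) {b c : G} (hb : b ∈ A) (hc : c ∈ A')
    (hn : ∀ x, eps x = 1 → ∀ h ∈ Subgroup.closure A', eps h = 1 → x * h * x⁻¹ ∈ Subgroup.closure A')
    (hcy : ∀ x, eps x = 1 → ∃ i : ℕ, ∃ h ∈ Subgroup.closure A', x = (c⁻¹ * b) ^ i * h) : Lst A := by
  obtain ⟨v, S'⟩ := seq_of_lst hl
  set H := Subgroup.closure A' with hH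
  have S : Seq A H (Nat.card H - 1) v := ⟨S'.mem, S'.inj, S'.sur, fun i hi => hA' (S'.edge i hi), S'.zero⟩
  have hcH : c ∈ H := Subgroup.subset_closure hc
  have hec : eps c = -1 := hA c (hA' hc)
  have hcard : Nat.card H - 1 + 1 = Nat.card H := by have : 0 < Nat.card H := Nat.card_pos; omega
  have hend := eps_end hA S hcard hcH hec
  set E := Nat.card H - 1 with hE
  set t := c⁻¹ * b with ht
  have het : eps t = 1 := by rw [ht, map_mul, map_inv, hec, hA b hb]; rfl
  set h0 := v E * c with hh0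
  have h0H : h0 ∈ H := H.mul_mem (S.mem E le_rfl) hcH
  have he0 : eps h0 = 1 := by rw [hh0, map_mul, hend, hec]; rfl
  have hg : v E * b = h0 * t := by rw [hh0, ht]; group
  -- powers of `g`
  have hpow : ∀ i : ℕ, ∃ h ∈ H, eps h = 1 ∧ (h0 * t) ^ i = t ^ i * h := by
    intro i
    induction i with
    | zero => exact ⟨1, H.one_mem, map_one _, by simp⟩
    | succ i ih =>
      obtain ⟨h, h1, h2, h3⟩ := ih
      -- `t ^ i h h0 t = t ^ (i + 1) (t⁻¹ h h0 t)`
      refine ⟨t⁻¹ * (h * h0) * t, ?_, ?_, ?_⟩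
      · have := hn t⁻¹ (by rw [map_inv, het, inv_one]) (h * h0) (H.mul_mem h1 h0H) (by rw [map_mul, h2, he0, one_mul])
        rwa [inv_inv] at this
      · rw [map_mul, map_mul, map_mul, map_inv, het, h2, he0]; rfl
      · rw [pow_succ, h3, pow_succ]; group
  have hbb : (v E)⁻¹ * (v E * b) ∈ A := by rw [inv_mul_cancel_left]; exact hb
  refine peel S hbb ?_
  have key : ∀ y, eps y = 1 → ∃ i : ℕ, ((v E * b) ^ i)⁻¹ * y ∈ H := by
    intro y hy
    obtain ⟨i, h, h1, h2⟩ := hcy y hy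
    obtain ⟨h', h3, _, h4⟩ := hpow i
    refine ⟨i, ?_⟩
    rw [hg, h4, h2]
    have h5 : (t ^ i * h')⁻¹ * (t ^ i * h) = h'⁻¹ * h := by group
    rw [h5]
    exact H.mul_mem (H.inv_mem h3) h1
  intro y
  rcases Int.units_eq_one_or (eps y) with h | h
  · exact key y h
  · obtain ⟨i, hi⟩ := key (y * c) (by rw [map_mul, h, hec]; rfl)
    refine ⟨i, ?_⟩
    have h2 := H.mul_mem hi (H.inv_mem hcH)
    rwa [← mul_assoc, mul_inv_cancel_right] at h2

end Pool.Agent.Lib.MP_688fd0_co.SQ5
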